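import Pool.Agent.Y331.QF.Cor1

set_option autoImplicit false

/-! # Correlations of two bounded sequences: sums over the shifts (helper of the project QF) -/

namespace Pool.Agent.Y331.QF.C

open Finset

theorem alsq_anti (N : ℝ) (hN : 0 < N) (r : ℕ) (hr : 1 ≤ r) :
    al N ((r + 1 : ℕ) : ℝ) / Real.sqrt ((r + 1 : ℕ) : ℝ) ≤ al N r / Real.sqrt r := by
  have h0 : (0 : ℝ) < r := by exact_mod_cast hr
  have h1 : (r : ℝ) ≤ ((r + 1 : ℕ) : ℝ) := by
    push_cast
    linarith
  exact div_le_div₀ (al_nonneg N r hN h0.le) (al_anti N r _ hN h0.le h1) (Real.sqrt_pos.mpr h0)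
    (Real.sqrt_le_sqrt h1)

theorem sum_shifts (N H P Q : ℝ) (ρ : ℕ → ℝ) (n1 Z : ℕ) (hN : 0 < N) (hH : 1 ≤ H) (hNH : N ≤ H ^ 2)
    (hQ : 0 ≤ Q) (hP : 0 ≤ P) (hρ : ∀ R : ℕ, ∑ r ∈ Icc 1 R, ρ r ≤ P * R) (hn1 : 1 ≤ n1)
    (hZ : 1 ≤ Z) :
    ∑ r ∈ Icc 1 Z, (32 * mu H r n1 * (ρ r + Q / n1) * al N n1
        + ∑ n ∈ Icc 1 Z, 32 * mu H r n * (3 * ρ r + 2 * Q / n) * (al N n / n)
        + 16 / H ^ 2 * (ρ r * n1 + Q) * (al N r / Real.sqrt r * (al N n1 / Real.sqrt n1))
        + ∑ n ∈ Icc 1 Z, 16 / H ^ 2 * ρ r * (al N r / Real.sqrt r * (al N n / Real.sqrt n))) ≤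
      224 * (1 + Real.log Z) * (P * N / H + Q / H) := by
  have hH0 : 0 < H := by linarith
  have hn10 : (0 : ℝ) < n1 := by exact_mod_cast hn1
  have hL : 0 ≤ Real.log Z := Real.log_natCast_nonneg Z
  have hsq : Real.sqrt N ≤ H := by
    rw [Real.sqrt_le_left hH0.le]
    exact hNH
  have hsN : Real.sqrt N * Real.sqrt N = N := Real.mul_self_sqrt hN.le
  have hsN0 : 0 ≤ Real.sqrt N := Real.sqrt_nonneg N
  have m1 : ∀ n : ℕ, 1 ≤ n → ∑ r ∈ Icc 1 Z, ρ r * mu H r n ≤ P * (n / H) := by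
    intro n hn
    have hn0 : (0 : ℝ) < n := by exact_mod_cast hn
    exact (avg ρ (fun r => mu H r n) P hρ (fun r _ => mu_anti H n hH0 hn0 r)
      (fun r => mu_nonneg H r n) Z).trans
      (mul_le_mul_of_nonneg_left (sum_mu H n hH0 hn0 Z) hP)
  have m2 : ∀ n : ℕ, 1 ≤ n → ∑ r ∈ Icc 1 Z, mu H r n ≤ n / H := fun n hn =>
    sum_mu H n hH0 (by exact_mod_cast hn) Z
  have m3 : ∑ r ∈ Icc 1 Z, ρ r * (al N r / Real.sqrt r) ≤ P * (2 * Real.sqrt N) := by
    refine (avg ρ (fun r => al N r / Real.sqrt r) P hρ (fun r hr => alsq_anti N hN r hr)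
      (fun r => ?_) Z).trans (mul_le_mul_of_nonneg_left (sum_al_sqrt N hN Z) hP)
    have := al_nonneg N r hN (Nat.cast_nonneg r)
    positivity
  have m4 := sum_al_sqrt N hN Z
  have m5 := sum_al N hN Z
  have m6 := sum_inv Z
  rw [sum_add_distrib, sum_add_distrib, sum_add_distrib]
  -- first term
  have t1 : ∑ r ∈ Icc 1 Z, 32 * mu H r n1 * (ρ r + Q / n1) * al N n1 ≤ 32 * (P * N / H + Q / H) := by
    have e : ∑ r ∈ Icc 1 Z, 32 * mu H r n1 * (ρ r + Q / n1) * al N n1 =
        32 * al N n1 * (∑ r ∈ Icc 1 Z, ρ r * mu H r n1 + Q / n1 * ∑ r ∈ Icc 1 Z, mu H r n1) := by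
      rw [mul_sum, ← sum_add_distrib, mul_sum]
      exact sum_congr rfl fun r _ => by ring
    rw [e]
    have a1 := m1 n1 hn1
    have a2 := mul_le_mul_of_nonneg_left (m2 n1 hn1) (by positivity : 0 ≤ Q / n1)
    have a3 : Q / n1 * (n1 / H) = Q / H := by field_simp
    rw [a3] at a2
    have a4 := al_nonneg N n1 hN hn10.le
    have a5 := al_le_one N n1 hN hn10.le
    have a6 := mul_al N n1 hN hn10.le
    calc 32 * al N n1 * (∑ r ∈ Icc 1 Z, ρ r * mu H r n1 + Q / n1 * ∑ r ∈ Icc 1 Z, mu H r n1)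
        ≤ 32 * al N n1 * (P * (n1 / H) + Q / H) :=
          mul_le_mul_of_nonneg_left (add_le_add a1 a2) (by positivity)
      _ = 32 * (P / H * (n1 * al N n1) + Q / H * al N n1) := by ring
      _ ≤ 32 * (P / H * N + Q / H * 1) := by
          apply mul_le_mul_of_nonneg_left _ (by norm_num)
          exact add_le_add (mul_le_mul_of_nonneg_left a6 (by positivity))
            (mul_le_mul_of_nonneg_left a5 (by positivity))
      _ = 32 * (P * N / H + Q / H) := by ring
  -- second term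
  have t2 : ∑ r ∈ Icc 1 Z, ∑ n ∈ Icc 1 Z, 32 * mu H r n * (3 * ρ r + 2 * Q / n) * (al N n / n) ≤
      96 * (P * N / H) + 64 * (1 + Real.log Z) * (Q / H) := by
    rw [sum_comm]
    have b1 : ∀ n ∈ Icc 1 Z,
        ∑ r ∈ Icc 1 Z, 32 * mu H r n * (3 * ρ r + 2 * Q / n) * (al N n / n) ≤
        96 * (P / H) * al N n + 64 * (Q / H) * (1 / n) := by
      intro n hn
      have hn' := (mem_Icc.mp hn).1
      have hn0 : (0 : ℝ) < n := by exact_mod_cast hn'
      have e : ∑ r ∈ Icc 1 Z, 32 * mu H r n * (3 * ρ r + 2 * Q / n) * (al N n / n) =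
          32 * (al N n / n) * (3 * ∑ r ∈ Icc 1 Z, ρ r * mu H r n +
            2 * Q / n * ∑ r ∈ Icc 1 Z, mu H r n) := by
        rw [mul_sum, mul_sum, ← sum_add_distrib, mul_sum]
        exact sum_congr rfl fun r _ => by ring
      rw [e]
      have a1 := m1 n hn'
      have a2 := mul_le_mul_of_nonneg_left (m2 n hn') (by positivity : 0 ≤ 2 * Q / n)
      have a3 : 2 * Q / n * (n / H) = 2 * Q / H := by field_simp
      rw [a3] at a2
      have a4 := al_nonneg N n hN hn0.le
      have a5 := al_le_one N n hN hn0.le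
      calc 32 * (al N n / n) * (3 * ∑ r ∈ Icc 1 Z, ρ r * mu H r n +
            2 * Q / n * ∑ r ∈ Icc 1 Z, mu H r n)
          ≤ 32 * (al N n / n) * (3 * (P * (n / H)) + 2 * Q / H) := by
            apply mul_le_mul_of_nonneg_left _ (by positivity)
            linarith
        _ = 96 * (P / H) * al N n + 64 * (Q / H) * (al N n / n) := by
            field_simp
            ring
        _ ≤ 96 * (P / H) * al N n + 64 * (Q / H) * (1 / n) := by
            have : al N n / n ≤ 1 / n := div_le_div_of_nonneg_right a5 hn0.le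
            have := mul_le_mul_of_nonneg_left this (by positivity : 0 ≤ 64 * (Q / H))
            linarith
    refine (sum_le_sum b1).trans ?_
    rw [sum_add_distrib, ← mul_sum, ← mul_sum]
    have c1 := mul_le_mul_of_nonneg_left m5 (by positivity : 0 ≤ 96 * (P / H))
    have c2 := mul_le_mul_of_nonneg_left m6 (by positivity : 0 ≤ 64 * (Q / H))
    have c3 : 96 * (P / H) * N = 96 * (P * N / H) := by ring
    have c4 : 64 * (Q / H) * (1 + Real.log Z) = 64 * (1 + Real.log Z) * (Q / H) := by ring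
    linarith
  -- third term
  have hPN : P * N / H ^ 2 ≤ P * N / H := by
    apply div_le_div_of_nonneg_left (by positivity) hH0
    nlinarith
  have t3 : ∑ r ∈ Icc 1 Z, 16 / H ^ 2 * (ρ r * n1 + Q) *
      (al N r / Real.sqrt r * (al N n1 / Real.sqrt n1)) ≤ 32 * (P * N / H + Q / H) := by
    have hs1 : 1 ≤ Real.sqrt n1 := by
      rw [Real.one_le_sqrt]
      exact_mod_cast hn1
    have e : ∑ r ∈ Icc 1 Z, 16 / H ^ 2 * (ρ r * n1 + Q) *
        (al N r / Real.sqrt r * (al N n1 / Real.sqrt n1)) =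
        16 / H ^ 2 * (al N n1 / Real.sqrt n1) * (n1 * ∑ r ∈ Icc 1 Z, ρ r * (al N r / Real.sqrt r) +
          Q * ∑ r ∈ Icc 1 Z, al N r / Real.sqrt r) := by
      rw [mul_sum, mul_sum, ← sum_add_distrib, mul_sum]
      exact sum_congr rfl fun r _ => by ring
    rw [e]
    have a4 := al_nonneg N n1 hN hn10.le
    have a5 := al_le_one N n1 hN hn10.le
    have a6 := sqrt_mul_al N n1 hN hn10.le
    have hss : Real.sqrt n1 * Real.sqrt n1 = n1 := Real.mul_self_sqrt hn10.le
    have hs0 : 0 < Real.sqrt n1 := by linarith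
    calc 16 / H ^ 2 * (al N n1 / Real.sqrt n1) * (n1 * ∑ r ∈ Icc 1 Z, ρ r * (al N r / Real.sqrt r) +
          Q * ∑ r ∈ Icc 1 Z, al N r / Real.sqrt r)
        ≤ 16 / H ^ 2 * (al N n1 / Real.sqrt n1) * (n1 * (P * (2 * Real.sqrt N)) +
          Q * (2 * Real.sqrt N)) := by
          apply mul_le_mul_of_nonneg_left _ (by positivity)
          exact add_le_add (mul_le_mul_of_nonneg_left m3 hn10.le)
            (mul_le_mul_of_nonneg_left m4 hQ)
      _ = 32 * (P * Real.sqrt N * (Real.sqrt n1 * al N n1) / H ^ 2 +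
          Q * Real.sqrt N * (al N n1 / Real.sqrt n1) / H ^ 2) := by
          have : (n1 : ℝ) / Real.sqrt n1 = Real.sqrt n1 := by
            rw [div_eq_iff hs0.ne', hss]
          calc 16 / H ^ 2 * (al N n1 / Real.sqrt n1) * (n1 * (P * (2 * Real.sqrt N)) +
                Q * (2 * Real.sqrt N)) = 32 * (P * Real.sqrt N * ((n1 / Real.sqrt n1) *
                al N n1) / H ^ 2 + Q * Real.sqrt N * (al N n1 / Real.sqrt n1) / H ^ 2) := by ring
            _ = _ := by rw [this]
      _ ≤ 32 * (P * N / H ^ 2 + Q * H / H ^ 2) := by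
          apply mul_le_mul_of_nonneg_left _ (by norm_num)
          apply add_le_add
          · apply div_le_div_of_nonneg_right _ (by positivity)
            rw [mul_assoc]
            apply mul_le_mul_of_nonneg_left _ hP
            calc Real.sqrt N * (Real.sqrt n1 * al N n1) ≤ Real.sqrt N * Real.sqrt N :=
                  mul_le_mul_of_nonneg_left a6 hsN0
              _ = N := hsN
          · apply div_le_div_of_nonneg_right _ (by positivity)
            rw [mul_assoc]
            apply mul_le_mul_of_nonneg_left _ hQ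
            have : al N n1 / Real.sqrt n1 ≤ 1 := by
              rw [div_le_one hs0]
              linarith
            calc Real.sqrt N * (al N n1 / Real.sqrt n1) ≤ Real.sqrt N * 1 :=
                  mul_le_mul_of_nonneg_left this hsN0
              _ ≤ H := by linarith
      _ ≤ 32 * (P * N / H + Q / H) := by
          have : Q * H / H ^ 2 = Q / H := by field_simp
          rw [this]
          linarith
  -- fourth term
  have t4 : ∑ r ∈ Icc 1 Z, ∑ n ∈ Icc 1 Z, 16 / H ^ 2 * ρ r *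
      (al N r / Real.sqrt r * (al N n / Real.sqrt n)) ≤ 64 * (P * N / H) := by
    have e : ∑ r ∈ Icc 1 Z, ∑ n ∈ Icc 1 Z, 16 / H ^ 2 * ρ r *
        (al N r / Real.sqrt r * (al N n / Real.sqrt n)) =
        16 / H ^ 2 * ((∑ r ∈ Icc 1 Z, ρ r * (al N r / Real.sqrt r)) *
          ∑ n ∈ Icc 1 Z, al N n / Real.sqrt n) := by
      rw [sum_mul_sum, mul_sum]
      refine sum_congr rfl fun r _ => ?_
      rw [mul_sum]
      exact sum_congr rfl fun n _ => by ring
    rw [e]
    have a1 : 0 ≤ ∑ n ∈ Icc 1 Z, al N n / Real.sqrt n := by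
      refine sum_nonneg fun n _ => ?_
      have := al_nonneg N n hN (Nat.cast_nonneg n)
      positivity
    have a2 : (∑ r ∈ Icc 1 Z, ρ r * (al N r / Real.sqrt r)) *
          ∑ n ∈ Icc 1 Z, al N n / Real.sqrt n ≤ P * (2 * Real.sqrt N) * (2 * Real.sqrt N) :=
      (mul_le_mul_of_nonneg_right m3 a1).trans (mul_le_mul_of_nonneg_left m4 (by positivity))
    have a3 := mul_le_mul_of_nonneg_left a2 (by positivity : 0 ≤ 16 / H ^ 2)
    have a4 : 16 / H ^ 2 * (P * (2 * Real.sqrt N) * (2 * Real.sqrt N)) = 64 * (P * N / H ^ 2) := by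
      have : P * (2 * Real.sqrt N) * (2 * Real.sqrt N) =
          4 * (P * (Real.sqrt N * Real.sqrt N)) := by ring
      rw [this, hsN]
      ring
    rw [a4] at a3
    linarith
  have hPH : 0 ≤ P * N / H := by positivity
  have hQH : 0 ≤ Q / H := by positivity
  nlinarith [mul_nonneg hL hPH, mul_nonneg hL hQH]

theorem split {M : Type} [AddCommMonoid M] (f : ℕ → ℕ → M) (Y Z : ℕ) :
    ∑ m ∈ Ioc Y Z, ∑ n ∈ Ioc Y Z, f m n = ∑ n ∈ Ioc Y Z, f n n +
      (∑ r ∈ Icc 1 Z, ∑ n ∈ Ioc Y (Z - r), f (n + r) n +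
        ∑ r ∈ Icc 1 Z, ∑ n ∈ Ioc Y (Z - r), f n (n + r)) := by
  rw [← sum_product' (Ioc Y Z) (Ioc Y Z) f, sum_sigma', sum_sigma',
    ← sum_filter_add_sum_filter_not (Ioc Y Z ×ˢ Ioc Y Z) (fun p => p.2 < p.1),
    ← sum_filter_add_sum_filter_not ((Ioc Y Z ×ˢ Ioc Y Z).filter fun p => ¬ p.2 < p.1)
      (fun p => p.1 < p.2)]
  have hA : ∑ p ∈ (Ioc Y Z ×ˢ Ioc Y Z).filter (fun p => p.2 < p.1), f p.1 p.2 =
      ∑ q ∈ (Icc 1 Z).sigma fun r => Ioc Y (Z - r), f (q.2 + q.1) q.2 := by
    refine sum_bij' (fun p _ => ⟨p.1 - p.2, p.2⟩) (fun q _ => (q.2 + q.1, q.2)) ?_ ?_ ?_ ?_ ?_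
    · intro p hp
      simp only [mem_filter, mem_product, mem_Ioc, mem_sigma, mem_Icc] at hp ⊢
      omega
    · intro q hq
      simp only [mem_filter, mem_product, mem_Ioc, mem_sigma, mem_Icc] at hq ⊢
      omega
    · intro p hp
      simp only [mem_filter, mem_product, mem_Ioc] at hp
      apply Prod.ext
      · change p.2 + (p.1 - p.2) = p.1
        omega
      · rfl
    · intro q hq
      simp only [add_tsub_cancel_left]
    · intro p hp
      simp only [mem_filter, mem_product, mem_Ioc] at hp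
      have : p.2 + (p.1 - p.2) = p.1 := by omega
      simp only [this]
  have hB : ∑ p ∈ ((Ioc Y Z ×ˢ Ioc Y Z).filter fun p => ¬ p.2 < p.1).filter
      (fun p => p.1 < p.2), f p.1 p.2 =
      ∑ q ∈ (Icc 1 Z).sigma fun r => Ioc Y (Z - r), f q.2 (q.2 + q.1) := by
    refine sum_bij' (fun p _ => ⟨p.2 - p.1, p.1⟩) (fun q _ => (q.2, q.2 + q.1)) ?_ ?_ ?_ ?_ ?_
    · intro p hp
      simp only [mem_filter, mem_product, mem_Ioc, mem_sigma, mem_Icc] at hp ⊢
      omega
    · intro q hq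
      simp only [mem_filter, mem_product, mem_Ioc, mem_sigma, mem_Icc] at hq ⊢
      omega
    · intro p hp
      simp only [mem_filter, mem_product, mem_Ioc] at hp
      apply Prod.ext
      · rfl
      · change p.1 + (p.2 - p.1) = p.2
        omega
    · intro q hq
      simp only [add_tsub_cancel_left]
    · intro p hp
      simp only [mem_filter, mem_product, mem_Ioc] at hp
      have : p.1 + (p.2 - p.1) = p.2 := by omega
      simp only [this]
  have hC : ∑ p ∈ ((Ioc Y Z ×ˢ Ioc Y Z).filter fun p => ¬ p.2 < p.1).filter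
      (fun p => ¬ p.1 < p.2), f p.1 p.2 = ∑ n ∈ Ioc Y Z, f n n := by
    refine sum_bij' (fun p _ => p.1) (fun n _ => (n, n)) ?_ ?_ ?_ ?_ ?_
    · intro p hp
      simp only [mem_filter, mem_product, mem_Ioc] at hp ⊢
      omega
    · intro n hn
      simp only [mem_filter, mem_product, mem_Ioc] at hn ⊢
      omega
    · intro p hp
      simp only [mem_filter, mem_product, mem_Ioc] at hp
      apply Prod.ext
      · rfl
      · change p.1 = p.2
        omega
    · intro n _
      rfl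
    · intro p hp
      simp only [mem_filter, mem_product, mem_Ioc] at hp
      have : p.2 = p.1 := by omega
      rw [this]
  rw [hA, hB, hC]
  rw [add_comm (∑ q ∈ (Icc 1 Z).sigma fun r => Ioc Y (Z - r), f q.2 (q.2 + q.1)), ← add_assoc,
    add_comm (∑ q ∈ (Icc 1 Z).sigma fun r => Ioc Y (Z - r), f (q.2 + q.1) q.2), add_assoc]

end Pool.Agent.Y331.QF.C
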