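import Pool.Agent.Y752.QF.Stm
import Pool.Agent.Y331.QF.Cor2

set_option autoImplicit false

/-! # Correlations of two bounded sequences (helper of the project QF) -/

namespace Pool.Agent.Y331.QF

open Finset Pool.Agent.Y331.QF.C
open Pool.Agent.Y752.QF (ker)

theorem ker_nonneg (H y : ℝ) : 0 ≤ ker H y := by
  rw [ker]
  positivity

theorem ker_even (H x y : ℝ) : ker H (x - y) = ker H (y - x) := by
  rw [ker, ker]
  congr 2
  ring

theorem ker_mono (H x y : ℝ) (hx : 0 ≤ x) (hxy : x ≤ y) : ker H y ≤ ker H x := by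
  rw [ker, ker]
  apply div_le_div_of_nonneg_left (by norm_num) (by positivity)
  have : (H * x) ^ 2 ≤ (H * y) ^ 2 := by
    rw [mul_pow, mul_pow]
    exact mul_le_mul_of_nonneg_left (pow_le_pow_left₀ hx hxy 2) (sq_nonneg H)
  linarith

theorem log_diff_nonneg (n r : ℕ) (hn : 1 ≤ n) :
    0 ≤ Real.log ((n + r : ℕ) : ℝ) - Real.log n := by
  have h0 : (0 : ℝ) < n := by exact_mod_cast hn
  have h1 : (n : ℝ) ≤ ((n + r : ℕ) : ℝ) := by exact_mod_cast (by omega)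
  have := Real.log_le_log h0 h1
  linarith

theorem log_diff_anti (n r : ℕ) (hn : 1 ≤ n) :
    Real.log ((n + 1 + r : ℕ) : ℝ) - Real.log ((n + 1 : ℕ) : ℝ) ≤
      Real.log ((n + r : ℕ) : ℝ) - Real.log n := by
  have h0 : (0 : ℝ) < n := by exact_mod_cast hn
  have h1 : (0 : ℝ) < ((n + r : ℕ) : ℝ) := by exact_mod_cast (by omega)
  have h2 : (0 : ℝ) < ((n + 1 : ℕ) : ℝ) := by exact_mod_cast (by omega)
  have h3 : (0 : ℝ) < ((n + 1 + r : ℕ) : ℝ) := by exact_mod_cast (by omega)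
  rw [← Real.log_div h3.ne' h2.ne', ← Real.log_div h1.ne' h0.ne']
  apply Real.log_le_log (by positivity)
  rw [div_le_div_iff₀ h2 h0]
  push_cast
  have : (0 : ℝ) ≤ r := Nat.cast_nonneg r
  nlinarith

theorem ker_bound (H : ℝ) (hH : 0 < H) (n r : ℕ) (hn : 1 ≤ n) (hr : 1 ≤ r) :
    ker H (Real.log ((n + r : ℕ) : ℝ) - Real.log n) ≤ 16 * mu H r n + 8 / H ^ 2 := by
  have h0 : (0 : ℝ) < n := by exact_mod_cast hn
  have hr0 : (0 : ℝ) < r := by exact_mod_cast hr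
  have h1 : (0 : ℝ) < (n : ℝ) + r := by linarith
  have hL : (r : ℝ) / (n + r) ≤ Real.log ((n + r : ℕ) : ℝ) - Real.log n := by
    push_cast
    have h2 := Real.log_le_sub_one_of_pos (div_pos h0 h1)
    rw [Real.log_div h0.ne' h1.ne'] at h2
    have h3 : (n : ℝ) / (n + r) - 1 = -(r / (n + r)) := by
      field_simp
      ring
    linarith
  have h4 := ker_mono H _ _ (by positivity) hL
  refine h4.trans ?_
  have e : ker H (r / (n + r)) = 2 * (n + r) ^ 2 / ((n + r) ^ 2 + (H * r) ^ 2) := by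
    rw [ker]
    field_simp
  rw [e]
  have hHr : 0 < H * r := mul_pos hH hr0
  rcases le_or_gt (r : ℝ) n with hc | hc
  · have h5 : 2 * ((n : ℝ) + r) ^ 2 / ((n + r) ^ 2 + (H * r) ^ 2) ≤ 16 * mu H r n := by
      rw [mu, div_pow, ← mul_div_assoc, div_le_div_iff₀ (by positivity) (by positivity)]
      have a1 : ((n : ℝ) + r) ^ 2 ≤ 4 * n ^ 2 := by nlinarith
      have a2 : ((n : ℝ) + H * r) ^ 2 ≤ 2 * (((n : ℝ) + r) ^ 2 + (H * r) ^ 2) := by
        nlinarith [sq_nonneg ((n : ℝ) - H * r)]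
      calc 2 * ((n : ℝ) + r) ^ 2 * (n + H * r) ^ 2
          ≤ 2 * (4 * n ^ 2) * (2 * (((n : ℝ) + r) ^ 2 + (H * r) ^ 2)) := by
            apply mul_le_mul _ a2 (by positivity) (by positivity)
            linarith
        _ = 16 * n ^ 2 * (((n : ℝ) + r) ^ 2 + (H * r) ^ 2) := by ring
    have : 0 ≤ 8 / H ^ 2 := by positivity
    linarith
  · have h5 : 2 * ((n : ℝ) + r) ^ 2 / ((n + r) ^ 2 + (H * r) ^ 2) ≤ 8 / H ^ 2 := by
      rw [div_le_div_iff₀ (by positivity) (by positivity)]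
      have a1 : ((n : ℝ) + r) ^ 2 ≤ 4 * r ^ 2 := by nlinarith
      have a2 := mul_le_mul_of_nonneg_right a1 (by positivity : 0 ≤ 2 * H ^ 2)
      nlinarith [sq_nonneg ((n : ℝ) + r)]
    have := mu_nonneg H r (n : ℝ)
    linarith

theorem majv (K N x t : ℝ) (hK : 1 ≤ K) (hN : 0 < N) (hx : 0 < x) (h1 : t ≤ 1)
    (h2 : t ≤ K * (N / x) ^ 3) : t ≤ 8 * K * al N x := by
  rw [al]
  rcases le_or_gt x N with h | h
  · have a1 : 1 / 2 ≤ N / (N + x) := by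
      rw [div_le_div_iff₀ (by norm_num) (by linarith)]
      linarith
    have a2 : (1 / 2 : ℝ) ^ 3 ≤ (N / (N + x)) ^ 3 := pow_le_pow_left₀ (by norm_num) a1 3
    nlinarith
  · have a1 : 1 / 2 * (N / x) ≤ N / (N + x) := by
      rw [div_mul_div_comm, one_mul, div_le_div_iff₀ (by positivity) (by linarith)]
      nlinarith
    have a2 : (1 / 2 * (N / x)) ^ 3 ≤ (N / (N + x)) ^ 3 :=
      pow_le_pow_left₀ (by positivity) a1 3
    have a3 : (1 / 2 * (N / x)) ^ 3 = 1 / 8 * (N / x) ^ 3 := by ring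
    rw [a3] at a2
    have a4 : K * (1 / 8 * (N / x) ^ 3) ≤ K * (N / (N + x)) ^ 3 :=
      mul_le_mul_of_nonneg_left a2 (by linarith)
    nlinarith

/-- one shift, for the weights of the problem -/
theorem shift_bound (K : ℝ) (hK : 1 ≤ K) (x : ℕ → ℂ) (v w : ℕ → ℝ) (Y Z : ℕ) (H N Q ρr : ℝ)
    (hv : Antitone v) (hw : Antitone w) (hv0 : ∀ n, 0 ≤ v n) (hv1 : ∀ n, v n ≤ 1)
    (hw0 : ∀ n, 0 ≤ w n) (hw1 : ∀ n, w n ≤ 1)
    (hvK : ∀ n : ℕ, 1 ≤ n → v n ≤ K * (N / n) ^ 3) (hwK : ∀ n : ℕ, 1 ≤ n → w n ≤ K * (N / n) ^ 3)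
    (hN : 0 < N) (hH : 0 < H) (hQ : 0 ≤ Q) (hρ : 0 ≤ ρr) (r : ℕ) (hr : 1 ≤ r)
    (hx : ∀ A B : ℕ, A ≤ B → ‖∑ n ∈ Ioc A B, x n‖ ≤ ρr * (B - A) + Q) :
    ‖∑ n ∈ Ioc Y (Z - r), x n * ((v (n + r) * w n / (Real.sqrt ((n + r : ℕ) : ℝ) * Real.sqrt n) *
      ker H (Real.log ((n + r : ℕ) : ℝ) - Real.log n) : ℝ) : ℂ)‖ ≤
      (64 * K ^ 2) * (32 * mu H r ((Y + 1 : ℕ) : ℝ) * (ρr + Q / ((Y + 1 : ℕ) : ℝ)) *
          al N ((Y + 1 : ℕ) : ℝ)
        + ∑ n ∈ Icc 1 Z, 32 * mu H r n * (3 * ρr + 2 * Q / n) * (al N n / n)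
        + 16 / H ^ 2 * (ρr * ((Y + 1 : ℕ) : ℝ) + Q) *
          (al N r / Real.sqrt r * (al N ((Y + 1 : ℕ) : ℝ) / Real.sqrt ((Y + 1 : ℕ) : ℝ)))
        + ∑ n ∈ Icc 1 Z, 16 / H ^ 2 * ρr * (al N r / Real.sqrt r * (al N n / Real.sqrt n))) := by
  have hr0 : (0 : ℝ) < r := by exact_mod_cast hr
  refine one N H ρr Q (64 * K ^ 2) r x
    (fun n => ker H (Real.log ((n + r : ℕ) : ℝ) - Real.log n))
    (fun n => v (n + r) * w n / (Real.sqrt ((n + r : ℕ) : ℝ) * Real.sqrt n)) Y (Z - r) Z hN hH hρ hQ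
    (by positivity) hr (by omega) hx ?_ (fun n => ker_nonneg _ _)
    (fun n hn => ker_bound H hH n r hn hr) ?_ ?_ ?_ ?_
  · intro n hn
    exact ker_mono H _ _ (log_diff_nonneg (n + 1) r (by omega)) (log_diff_anti n r hn)
  · intro n hn
    have h0 : (0 : ℝ) < n := by exact_mod_cast hn
    have h1 : (0 : ℝ) < ((n + r : ℕ) : ℝ) := by exact_mod_cast (by omega)
    apply div_le_div₀ (mul_nonneg (hv0 _) (hw0 _))
    · exact mul_le_mul (hv (by omega)) (hw (by omega)) (hw0 _) (hv0 _)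
    · exact mul_pos (Real.sqrt_pos.mpr h1) (Real.sqrt_pos.mpr h0)
    · apply mul_le_mul
      · apply Real.sqrt_le_sqrt
        exact_mod_cast (by omega)
      · apply Real.sqrt_le_sqrt
        exact_mod_cast (by omega)
      · exact Real.sqrt_nonneg _
      · exact Real.sqrt_nonneg _
  · intro n
    have := hv0 (n + r)
    have := hw0 n
    positivity
  · intro n hn
    have h0 : (0 : ℝ) < n := by exact_mod_cast hn
    have h1 : (n : ℝ) ≤ ((n + r : ℕ) : ℝ) := by exact_mod_cast (by omega)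
    have a1 := majv K N n (w n) hK hN h0 (hw1 n) (hwK n hn)
    have hal := al_nonneg N n hN h0.le
    have a2 : v (n + r) * w n ≤ 64 * K ^ 2 * al N n := by
      calc v (n + r) * w n ≤ 1 * w n := mul_le_mul_of_nonneg_right (hv1 _) (hw0 _)
        _ ≤ 8 * K * al N n := by linarith
        _ ≤ 64 * K ^ 2 * al N n := by
            apply mul_le_mul_of_nonneg_right _ hal
            nlinarith
    have a3 : (n : ℝ) ≤ Real.sqrt ((n + r : ℕ) : ℝ) * Real.sqrt n := by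
      calc (n : ℝ) = Real.sqrt n * Real.sqrt n := (Real.mul_self_sqrt h0.le).symm
        _ ≤ _ := mul_le_mul_of_nonneg_right (Real.sqrt_le_sqrt h1) (Real.sqrt_nonneg _)
    rw [← mul_div_assoc]
    exact div_le_div₀ (by positivity) a2 h0 a3
  · intro n hn
    have h0 : (0 : ℝ) < n := by exact_mod_cast hn
    have h1 : (r : ℝ) ≤ ((n + r : ℕ) : ℝ) := by exact_mod_cast (by omega)
    have hm : (0 : ℝ) < ((n + r : ℕ) : ℝ) := by linarith
    have a1 := majv K N n (w n) hK hN h0 (hw1 n) (hwK n hn)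
    have a1' := majv K N _ (v (n + r)) hK hN hm (hv1 _) (hvK (n + r) (by omega))
    have a2 := al_anti N r _ hN hr0.le h1
    have hal := al_nonneg N n hN h0.le
    have halr := al_nonneg N r hN hr0.le
    have a3 : v (n + r) ≤ 8 * K * al N r :=
      a1'.trans (mul_le_mul_of_nonneg_left a2 (by positivity))
    have a4 : v (n + r) * w n ≤ 64 * K ^ 2 * (al N r * al N n) := by
      calc v (n + r) * w n ≤ (8 * K * al N r) * (8 * K * al N n) :=
            mul_le_mul a3 a1 (hw0 _) (by positivity)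
        _ = _ := by ring
    have a5 : Real.sqrt r * Real.sqrt n ≤ Real.sqrt ((n + r : ℕ) : ℝ) * Real.sqrt n :=
      mul_le_mul_of_nonneg_right (Real.sqrt_le_sqrt h1) (Real.sqrt_nonneg _)
    rw [div_mul_div_comm, ← mul_div_assoc]
    exact div_le_div₀ (by positivity) a4
      (mul_pos (Real.sqrt_pos.mpr hr0) (Real.sqrt_pos.mpr h0)) a5

/-- the diagonal -/
theorem diag_bound (x : ℕ → ℂ) (u : ℕ → ℝ) (Y Z : ℕ) (Q ρ0 : ℝ) (hY : 1 ≤ Y)
    (hu : Antitone u) (hu0 : ∀ n, 0 ≤ u n) (hu1 : ∀ n, u n ≤ 1) (hQ : 0 ≤ Q) (hρ : 0 ≤ ρ0)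
    (hx : ∀ A B : ℕ, A ≤ B → ‖∑ n ∈ Ioc A B, x n‖ ≤ ρ0 * (B - A) + Q) :
    ‖∑ n ∈ Ioc Y Z, x n * ((u n / n : ℝ) : ℂ)‖ ≤ ρ0 + Q / Y + ρ0 * (1 + Real.log Z) := by
  have hL : 0 ≤ Real.log Z := Real.log_natCast_nonneg Z
  have hY0 : (0 : ℝ) < Y := by exact_mod_cast hY
  rcases le_or_gt Z Y with hZY | hZY
  · rw [Ioc_eq_empty_of_le hZY, sum_empty, norm_zero]
    positivity
  obtain ⟨n, rfl⟩ : ∃ n, Z = Y + 1 + n := ⟨Z - (Y + 1), by omega⟩
  rw [shift']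
  have hg : ∀ j, ‖∑ k ∈ range (j + 1), x (Y + 1 + k)‖ ≤ ρ0 * ((Y + 1 + j : ℕ) : ℝ) + Q := by
    intro j
    rw [← shift']
    refine (hx Y (Y + 1 + j) (by omega)).trans ?_
    have : ((Y + 1 + j : ℕ) : ℝ) - Y ≤ ((Y + 1 + j : ℕ) : ℝ) := by linarith
    have := mul_le_mul_of_nonneg_left this hρ
    linarith
  have hgm : Monotone fun j : ℕ => ρ0 * ((Y + 1 + j : ℕ) : ℝ) + Q := by
    intro i j hij
    have : ((Y + 1 + i : ℕ) : ℝ) ≤ ((Y + 1 + j : ℕ) : ℝ) := by exact_mod_cast (by omega)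
    have := mul_le_mul_of_nonneg_left this hρ
    simp only
    linarith
  have hDanti : Antitone fun k => u (Y + 1 + k) / ((Y + 1 + k : ℕ) : ℝ) := by
    intro i j hij
    apply div_le_div₀ (hu0 _) (hu (by omega))
    · exact_mod_cast (by omega)
    · exact_mod_cast (by omega)
  have h1 := dec0 (fun k => x (Y + 1 + k)) (fun k => u (Y + 1 + k) / ((Y + 1 + k : ℕ) : ℝ)) _ hg
    hDanti (fun k => div_nonneg (hu0 _) (Nat.cast_nonneg _)) n
  refine h1.trans ?_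
  have h2 := maj _ (fun k => u (Y + 1 + k) / ((Y + 1 + k : ℕ) : ℝ))
    (fun k => 1 / ((Y + 1 + k : ℕ) : ℝ)) hgm (by positivity)
    (fun j => div_le_div_of_nonneg_right (hu1 _) (Nat.cast_nonneg _)) n
  refine h2.trans ?_
  have b1 : (ρ0 * ((Y + 1 + 0 : ℕ) : ℝ) + Q) * (1 / ((Y + 1 + 0 : ℕ) : ℝ)) ≤ ρ0 + Q / Y := by
    have p0 : (0 : ℝ) < ((Y + 1 + 0 : ℕ) : ℝ) := by exact_mod_cast (by omega)
    have e : (ρ0 * ((Y + 1 + 0 : ℕ) : ℝ) + Q) * (1 / ((Y + 1 + 0 : ℕ) : ℝ)) =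
        ρ0 + Q / ((Y + 1 + 0 : ℕ) : ℝ) := by field_simp
    rw [e]
    have : Q / ((Y + 1 + 0 : ℕ) : ℝ) ≤ Q / Y := by
      apply div_le_div_of_nonneg_left hQ hY0
      exact_mod_cast (by omega)
    linarith
  have b2 : ∑ j ∈ range n, (ρ0 * ((Y + 1 + (j + 1) : ℕ) : ℝ) + Q -
      (ρ0 * ((Y + 1 + j : ℕ) : ℝ) + Q)) * (1 / ((Y + 1 + (j + 1) : ℕ) : ℝ)) ≤
      ρ0 * (1 + Real.log ((Y + 1 + n : ℕ) : ℝ)) := by
    have c := icc_bound (fun n : ℕ => ρ0 * (1 / (n : ℝ))) (fun k _ => by positivity) Y n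
      (Y + 1 + n) le_rfl
    rw [← mul_sum (Icc 1 (Y + 1 + n))] at c
    refine le_trans (le_of_eq ?_) (c.trans (mul_le_mul_of_nonneg_left (sum_inv _) hρ))
    refine sum_congr rfl fun j _ => ?_
    have c1 : ((Y + 1 + (j + 1) : ℕ) : ℝ) = ((Y + 1 + j : ℕ) : ℝ) + 1 := by
      push_cast
      ring
    rw [c1]
    ring
  linarith

theorem COR : Pool.Agent.Y752.QF.S_COR := by
  intro K hK
  refine ⟨448 * (64 * K ^ 2) + 4, by positivity, ?_⟩
  intro a b v w Y Z H N Q P ρ0 ρ ha hb hv hw hv0 hv1 hw0 hw1 hvK hwK hY hYZ hH hHN hNH hQ hP0 hP1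
    hρ0 hρ hρP h0 h1 h2
  have hH0 : 0 < H := by linarith
  have hN0 : 0 < N := by linarith
  have hQ0 : 0 ≤ Q := by linarith
  have hZ : 1 ≤ Z := by omega
  have hL : 0 ≤ Real.log Z := Real.log_natCast_nonneg Z
  have hY0 : (0 : ℝ) < Y := by exact_mod_cast hY
  rw [split]
  -- diagonal
  have hd : ‖∑ n ∈ Ioc Y Z, a n * (starRingEnd ℂ) (b n) *
      ((v n * w n / (Real.sqrt n * Real.sqrt n) * ker H (Real.log n - Real.log n) : ℝ) : ℂ)‖ ≤
      2 * (ρ0 + Q / Y + ρ0 * (1 + Real.log Z)) := by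
    have e : ∑ n ∈ Ioc Y Z, a n * (starRingEnd ℂ) (b n) *
      ((v n * w n / (Real.sqrt n * Real.sqrt n) * ker H (Real.log n - Real.log n) : ℝ) : ℂ) =
      2 * ∑ n ∈ Ioc Y Z, (a n * (starRingEnd ℂ) (b n)) * ((v n * w n / n : ℝ) : ℂ) := by
      rw [mul_sum]
      refine sum_congr rfl fun n _ => ?_
      rw [Real.mul_self_sqrt (Nat.cast_nonneg n), sub_self]
      have : ker H 0 = 2 := by
        rw [ker]
        norm_num
      rw [this]
      push_cast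
      ring
    rw [e, norm_mul]
    have hn2 : ‖(2 : ℂ)‖ = 2 := by norm_num
    rw [hn2]
    apply mul_le_mul_of_nonneg_left _ (by norm_num)
    refine diag_bound (fun n => a n * (starRingEnd ℂ) (b n)) (fun n => v n * w n) Y Z Q ρ0 hY ?_
      (fun n => mul_nonneg (hv0 n) (hw0 n)) ?_ hQ0 hρ0 h0
    · intro i j hij
      exact mul_le_mul (hv hij) (hw hij) (hw0 _) (hv0 _)
    · intro n
      exact mul_le_one₀ (hv1 n) (hw0 n) (hw1 n)
  -- upper
  have hs1 : ‖∑ r ∈ Icc 1 Z, ∑ n ∈ Ioc Y (Z - r), a (n + r) * (starRingEnd ℂ) (b n) *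
      ((v (n + r) * w n / (Real.sqrt ((n + r : ℕ) : ℝ) * Real.sqrt n) *
        ker H (Real.log ((n + r : ℕ) : ℝ) - Real.log n) : ℝ) : ℂ)‖ ≤
      (64 * K ^ 2) * (224 * (1 + Real.log Z) * (P * N / H + Q / H)) := by
    refine (norm_sum_le _ _).trans ?_
    refine (sum_le_sum fun r hr => shift_bound K hK (fun n => a (n + r) * (starRingEnd ℂ) (b n)) v w
      Y Z H N Q (ρ r) hv hw hv0 hv1 hw0 hw1 hvK hwK hN0 hH0 hQ0 (hρ r) r (mem_Icc.mp hr).1
      (fun A B hAB => h1 r A B (mem_Icc.mp hr).1 hAB)).trans ?_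
    rw [← mul_sum]
    exact mul_le_mul_of_nonneg_left (sum_shifts N H P Q ρ (Y + 1) Z hN0 (by linarith) hNH hQ0 hP0
      hρP (by omega) hZ) (by positivity)
  -- lower
  have hs2 : ‖∑ r ∈ Icc 1 Z, ∑ n ∈ Ioc Y (Z - r), a n * (starRingEnd ℂ) (b (n + r)) *
      ((v n * w (n + r) / (Real.sqrt n * Real.sqrt ((n + r : ℕ) : ℝ)) *
        ker H (Real.log n - Real.log ((n + r : ℕ) : ℝ)) : ℝ) : ℂ)‖ ≤
      (64 * K ^ 2) * (224 * (1 + Real.log Z) * (P * N / H + Q / H)) := by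
    refine (norm_sum_le _ _).trans ?_
    have e : ∀ r ∈ Icc 1 Z, ‖∑ n ∈ Ioc Y (Z - r), a n * (starRingEnd ℂ) (b (n + r)) *
      ((v n * w (n + r) / (Real.sqrt n * Real.sqrt ((n + r : ℕ) : ℝ)) *
        ker H (Real.log n - Real.log ((n + r : ℕ) : ℝ)) : ℝ) : ℂ)‖ =
        ‖∑ n ∈ Ioc Y (Z - r), a n * (starRingEnd ℂ) (b (n + r)) *
      ((w (n + r) * v n / (Real.sqrt ((n + r : ℕ) : ℝ) * Real.sqrt n) *
        ker H (Real.log ((n + r : ℕ) : ℝ) - Real.log n) : ℝ) : ℂ)‖ := by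
      intro r _
      congr 1
      refine sum_congr rfl fun n _ => ?_
      rw [ker_even H (Real.log n), mul_comm (v n), mul_comm (Real.sqrt n)]
    rw [sum_congr rfl e]
    refine (sum_le_sum fun r hr => shift_bound K hK (fun n => a n * (starRingEnd ℂ) (b (n + r))) w v
      Y Z H N Q (ρ r) hw hv hw0 hw1 hv0 hv1 hwK hvK hN0 hH0 hQ0 (hρ r) r (mem_Icc.mp hr).1
      (fun A B hAB => h2 r A B (mem_Icc.mp hr).1 hAB)).trans ?_
    rw [← mul_sum]
    exact mul_le_mul_of_nonneg_left (sum_shifts N H P Q ρ (Y + 1) Z hN0 (by linarith) hNH hQ0 hP0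
      hρP (by omega) hZ) (by positivity)
  refine (norm_add_le _ _).trans ?_
  have h3 := (norm_add_le (∑ r ∈ Icc 1 Z, ∑ n ∈ Ioc Y (Z - r), a (n + r) * (starRingEnd ℂ) (b n) *
      ((v (n + r) * w n / (Real.sqrt ((n + r : ℕ) : ℝ) * Real.sqrt n) *
        ker H (Real.log ((n + r : ℕ) : ℝ) - Real.log n) : ℝ) : ℂ))
      (∑ r ∈ Icc 1 Z, ∑ n ∈ Ioc Y (Z - r), a n * (starRingEnd ℂ) (b (n + r)) *
      ((v n * w (n + r) / (Real.sqrt n * Real.sqrt ((n + r : ℕ) : ℝ)) *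
        ker H (Real.log n - Real.log ((n + r : ℕ) : ℝ)) : ℝ) : ℂ))).trans (add_le_add hs1 hs2)
  refine (add_le_add hd h3).trans ?_
  set X := ρ0 + P * N / H + Q * (1 / Y + 1 / H) with hX
  set L := 1 + Real.log Z with hLdef
  have hL1 : 1 ≤ L := by linarith
  have p1 : 0 ≤ P * N / H := by positivity
  have p2 : 0 ≤ Q / Y := by positivity
  have p3 : 0 ≤ Q / H := by positivity
  have eX : X = ρ0 + P * N / H + Q / Y + Q / H := by
    rw [hX]
    ring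
  have hX0 : 0 ≤ X := by
    rw [eX]
    positivity
  have q1 : 2 * (ρ0 + Q / Y + ρ0 * L) ≤ 4 * L * X := by
    rw [eX]
    nlinarith [mul_nonneg (by linarith : (0 : ℝ) ≤ L - 1) hρ0, mul_nonneg (by linarith : (0 : ℝ) ≤ L)
      p1, mul_nonneg (by linarith : (0 : ℝ) ≤ L - 1) p2, mul_nonneg (by linarith : (0 : ℝ) ≤ L) p3,
      mul_nonneg (by linarith : (0 : ℝ) ≤ L) p2, mul_nonneg (by linarith : (0 : ℝ) ≤ L) hρ0]
  have q2 : P * N / H + Q / H ≤ X := by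
    rw [eX]
    linarith
  have q3 : 64 * K ^ 2 * (224 * L * (P * N / H + Q / H)) ≤ 64 * K ^ 2 * (224 * L * X) := by
    apply mul_le_mul_of_nonneg_left _ (by positivity)
    exact mul_le_mul_of_nonneg_left q2 (by positivity)
  have q4 : L * X ≤ L ^ 2 * X := by
    apply mul_le_mul_of_nonneg_right _ hX0
    nlinarith
  calc 2 * (ρ0 + Q / Y + ρ0 * L) + (64 * K ^ 2 * (224 * L * (P * N / H + Q / H)) +
        64 * K ^ 2 * (224 * L * (P * N / H + Q / H)))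
      ≤ 4 * L * X + (64 * K ^ 2 * (224 * L * X) + 64 * K ^ 2 * (224 * L * X)) := by linarith
    _ = (448 * (64 * K ^ 2) + 4) * (L * X) := by ring
    _ ≤ (448 * (64 * K ^ 2) + 4) * (L ^ 2 * X) := mul_le_mul_of_nonneg_left q4 (by positivity)
    _ = _ := by ring

end Pool.Agent.Y331.QF
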