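import Mathlib

set_option autoImplicit false

/-! # Correlations of two bounded sequences: summation by parts (helper of the project QF) -/

namespace Pool.Agent.Y331.QF.C

open Finset

theorem abel (y : ℕ → ℂ) (W G : ℕ → ℝ) (hG : ∀ j, ‖∑ k ∈ range (j + 1), y k‖ ≤ G j) (n : ℕ) :
    ‖∑ k ∈ range (n + 1), y k * (W k : ℂ) - (W n : ℂ) * ∑ k ∈ range (n + 1), y k‖ ≤
      ∑ j ∈ range n, G j * |W j - W (j + 1)| := by
  induction n with
  | zero => simp [mul_comm]
  | succ n ih =>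
    have e : ∑ k ∈ range (n + 1 + 1), y k * (W k : ℂ) -
        (W (n + 1) : ℂ) * ∑ k ∈ range (n + 1 + 1), y k =
        (∑ k ∈ range (n + 1), y k * (W k : ℂ) - (W n : ℂ) * ∑ k ∈ range (n + 1), y k) +
          ((W n : ℂ) - W (n + 1)) * ∑ k ∈ range (n + 1), y k := by
      rw [sum_range_succ _ (n + 1), sum_range_succ (fun k => y k) (n + 1)]
      ring
    rw [e, sum_range_succ (fun j => G j * |W j - W (j + 1)|)]
    refine (norm_add_le _ _).trans (add_le_add ih ?_)
    have h1 : ‖(W n : ℂ) - W (n + 1)‖ = |W n - W (n + 1)| := by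
      rw [← Complex.ofReal_sub, Complex.norm_real, Real.norm_eq_abs]
    rw [norm_mul, mul_comm, h1]
    exact mul_le_mul_of_nonneg_right (hG n) (abs_nonneg _)

theorem parts (G D : ℕ → ℝ) (n : ℕ) :
    ∑ j ∈ range n, G j * (D j - D (j + 1)) + G n * D n =
      G 0 * D 0 + ∑ j ∈ range n, (G (j + 1) - G j) * D (j + 1) := by
  induction n with
  | zero => simp
  | succ n ih =>
    rw [sum_range_succ, sum_range_succ]
    linarith

/-- increasing weights -/
theorem inc (y : ℕ → ℂ) (W G : ℕ → ℝ) (hG : ∀ j, ‖∑ k ∈ range (j + 1), y k‖ ≤ G j)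
    (hGm : Monotone G) (hW : Monotone W) (hW0 : ∀ j, 0 ≤ W j) (n : ℕ) :
    ‖∑ k ∈ range (n + 1), y k * (W k : ℂ)‖ ≤ 2 * W n * G n := by
  have h1 := abel y W G hG n
  have hG0 : 0 ≤ G n := (norm_nonneg _).trans (hG n)
  have h2 : ∑ j ∈ range n, G j * |W j - W (j + 1)| ≤ G n * W n := by
    have a1 : ∑ j ∈ range n, G j * |W j - W (j + 1)| ≤ ∑ j ∈ range n, G n * (W (j + 1) - W j) := by
      refine sum_le_sum fun j hj => ?_
      have a2 : |W j - W (j + 1)| = W (j + 1) - W j := by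
        rw [abs_sub_comm]
        exact abs_of_nonneg (sub_nonneg.mpr (hW (Nat.le_succ j)))
      rw [a2]
      exact mul_le_mul_of_nonneg_right (hGm (mem_range.mp hj).le)
        (sub_nonneg.mpr (hW (Nat.le_succ j)))
    rw [← mul_sum, sum_range_sub] at a1
    refine a1.trans (mul_le_mul_of_nonneg_left ?_ hG0)
    linarith [hW0 0]
  have h3 : ‖(W n : ℂ) * ∑ k ∈ range (n + 1), y k‖ ≤ W n * G n := by
    rw [norm_mul, Complex.norm_real, Real.norm_eq_abs, abs_of_nonneg (hW0 n)]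
    exact mul_le_mul_of_nonneg_left (hG n) (hW0 n)
  have h4 : ∑ k ∈ range (n + 1), y k * (W k : ℂ) =
      (∑ k ∈ range (n + 1), y k * (W k : ℂ) - (W n : ℂ) * ∑ k ∈ range (n + 1), y k) +
        (W n : ℂ) * ∑ k ∈ range (n + 1), y k := by ring
  rw [h4]
  refine (norm_add_le _ _).trans ?_
  linarith

/-- decreasing weights: the basic bound -/
theorem dec0 (y : ℕ → ℂ) (D G : ℕ → ℝ) (hG : ∀ j, ‖∑ k ∈ range (j + 1), y k‖ ≤ G j)
    (hD : Antitone D) (hD0 : ∀ j, 0 ≤ D j) (n : ℕ) :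
    ‖∑ k ∈ range (n + 1), y k * (D k : ℂ)‖ ≤
      ∑ j ∈ range n, G j * (D j - D (j + 1)) + G n * D n := by
  have h1 := abel y D G hG n
  have h2 : ∑ j ∈ range n, G j * |D j - D (j + 1)| = ∑ j ∈ range n, G j * (D j - D (j + 1)) := by
    refine sum_congr rfl fun j _ => ?_
    rw [abs_of_nonneg (sub_nonneg.mpr (hD (Nat.le_succ j)))]
  have h3 : ‖(D n : ℂ) * ∑ k ∈ range (n + 1), y k‖ ≤ G n * D n := by
    rw [norm_mul, Complex.norm_real, Real.norm_eq_abs, abs_of_nonneg (hD0 n), mul_comm]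
    exact mul_le_mul_of_nonneg_right (hG n) (hD0 n)
  have h4 : ∑ k ∈ range (n + 1), y k * (D k : ℂ) =
      (∑ k ∈ range (n + 1), y k * (D k : ℂ) - (D n : ℂ) * ∑ k ∈ range (n + 1), y k) +
        (D n : ℂ) * ∑ k ∈ range (n + 1), y k := by ring
  rw [h4, ← h2]
  refine (norm_add_le _ _).trans ?_
  linarith

/-- replacing the weights by a majorant -/
theorem maj (G D D' : ℕ → ℝ) (hG : Monotone G) (hG0 : 0 ≤ G 0) (h : ∀ j, D j ≤ D' j) (n : ℕ) :
    ∑ j ∈ range n, G j * (D j - D (j + 1)) + G n * D n ≤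
      G 0 * D' 0 + ∑ j ∈ range n, (G (j + 1) - G j) * D' (j + 1) := by
  rw [parts]
  refine add_le_add (mul_le_mul_of_nonneg_left (h 0) hG0) (sum_le_sum fun j _ => ?_)
  exact mul_le_mul_of_nonneg_left (h _) (sub_nonneg.mpr (hG (Nat.le_succ j)))

theorem shift {M : Type} [AddCommMonoid M] (f : ℕ → M) (Y n : ℕ) :
    ∑ k ∈ Ioc Y (Y + n), f k = ∑ i ∈ range n, f (Y + 1 + i) := by
  induction n with
  | zero => simp
  | succ n ih =>
    rw [sum_range_succ, ← ih, ← add_assoc, ← Finset.insert_Ioc_right_eq_Ioc_add_one (by omega),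
      sum_insert (by simp), add_comm]
    congr 2
    omega

theorem shift' {M : Type} [AddCommMonoid M] (f : ℕ → M) (Y n : ℕ) :
    ∑ k ∈ Ioc Y (Y + 1 + n), f k = ∑ i ∈ range (n + 1), f (Y + 1 + i) := by
  rw [← shift f Y (n + 1)]
  congr 2
  omega

/-- averages and decreasing weights -/
theorem avg (ρ g : ℕ → ℝ) (P : ℝ) (hρ : ∀ R : ℕ, ∑ r ∈ Icc 1 R, ρ r ≤ P * R)
    (hg : ∀ r, 1 ≤ r → g (r + 1) ≤ g r) (hg0 : ∀ r, 0 ≤ g r) (R : ℕ) :
    ∑ r ∈ Icc 1 R, ρ r * g r ≤ P * ∑ r ∈ Icc 1 R, g r := by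
  have key : ∀ R : ℕ, ∑ r ∈ Icc 1 R, ρ r * g r - (∑ r ∈ Icc 1 R, ρ r) * g R ≤
      P * ∑ r ∈ Icc 1 R, g r - P * R * g R := by
    intro R
    induction R with
    | zero => simp
    | succ R ih =>
      rw [sum_Icc_succ_top (by omega), sum_Icc_succ_top (by omega), sum_Icc_succ_top (by omega)]
      rcases Nat.eq_zero_or_pos R with h0 | h0
      · subst h0
        simp
      · have h1 := hρ R
        have h2 := hg R h0
        push_cast
        nlinarith [mul_le_mul_of_nonneg_right h1 (sub_nonneg.mpr h2)]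
  have h1 := key R
  have h2 := mul_le_mul_of_nonneg_right (hρ R) (hg0 R)
  linarith

/-! ### the sums -/

/-- the weight `(N / (N + x))^3` -/
noncomputable def al (N x : ℝ) : ℝ := (N / (N + x)) ^ 3

/-- the weight `(n / (n + H r))^2` -/
noncomputable def mu (H r n : ℝ) : ℝ := (n / (n + H * r)) ^ 2

theorem frac_le_one (N x : ℝ) (hN : 0 < N) (hx : 0 ≤ x) : N / (N + x) ≤ 1 := by
  rw [div_le_one (by linarith)]
  linarith

theorem al_nonneg (N x : ℝ) (hN : 0 < N) (hx : 0 ≤ x) : 0 ≤ al N x := by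
  rw [al]
  have : 0 < N + x := by linarith
  positivity

theorem al_le_one (N x : ℝ) (hN : 0 < N) (hx : 0 ≤ x) : al N x ≤ 1 := by
  rw [al]
  have h1 : 0 ≤ N / (N + x) := by
    have : 0 < N + x := by linarith
    positivity
  exact pow_le_one₀ h1 (frac_le_one N x hN hx)

theorem al_anti (N x y : ℝ) (hN : 0 < N) (hx : 0 ≤ x) (hxy : x ≤ y) : al N y ≤ al N x := by
  rw [al, al]
  have h0 : 0 < N + x := by linarith
  have h1 : 0 ≤ N / (N + y) := by
    have : 0 < N + y := by linarith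
    positivity
  exact pow_le_pow_left₀ h1 (div_le_div_of_nonneg_left hN.le h0 (by linarith)) 3

theorem mul_al (N x : ℝ) (hN : 0 < N) (hx : 0 ≤ x) : x * al N x ≤ N := by
  have h0 : 0 < N + x := by linarith
  have h1 : 0 ≤ N / (N + x) := by positivity
  have h2 := frac_le_one N x hN hx
  have h3 : al N x ≤ N / (N + x) := by
    rw [al]
    calc (N / (N + x)) ^ 3 ≤ (N / (N + x)) ^ 1 := pow_le_pow_of_le_one h1 h2 (by norm_num)
      _ = N / (N + x) := pow_one _
  calc x * al N x ≤ x * (N / (N + x)) := mul_le_mul_of_nonneg_left h3 hx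
    _ ≤ N := by
      rw [← mul_div_assoc, div_le_iff₀ h0]
      nlinarith

theorem sqrt_mul_al (N x : ℝ) (hN : 0 < N) (hx : 0 ≤ x) : Real.sqrt x * al N x ≤ Real.sqrt N := by
  have h1 : 0 ≤ al N x := al_nonneg N x hN hx
  have h2 : al N x ≤ 1 := al_le_one N x hN hx
  have h3 : Real.sqrt x * al N x ≤ Real.sqrt x * Real.sqrt (al N x) := by
    apply mul_le_mul_of_nonneg_left _ (Real.sqrt_nonneg _)
    apply Real.le_sqrt_of_sq_le
    nlinarith
  refine h3.trans ?_
  rw [← Real.sqrt_mul hx]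
  exact Real.sqrt_le_sqrt (mul_al N x hN hx)

theorem sum_al (N : ℝ) (hN : 0 < N) (Z : ℕ) : ∑ n ∈ Icc 1 Z, al N n ≤ N := by
  have key : ∀ Z : ℕ, ∑ n ∈ Icc 1 Z, al N n ≤ N - N ^ 2 / (N + Z) := by
    intro Z
    induction Z with
    | zero =>
      simp
      rw [div_le_iff₀ hN]
      nlinarith
    | succ Z ih =>
      rw [sum_Icc_succ_top (by omega)]
      have hZ : (0 : ℝ) ≤ Z := Nat.cast_nonneg Z
      have h1 : 0 < N + Z := by linarith
      have h2 : 0 < N + (Z + 1) := by linarith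
      have h3 : al N ((Z + 1 : ℕ) : ℝ) ≤ (N / (N + (Z + 1))) ^ 2 := by
        rw [al]
        push_cast
        exact pow_le_pow_of_le_one (by positivity) (frac_le_one N _ hN (by linarith)) (by norm_num)
      have h4 : (N / (N + (Z + 1))) ^ 2 ≤ N ^ 2 / (N + Z) - N ^ 2 / (N + (Z + 1)) := by
        rw [div_sub_div _ _ h1.ne' h2.ne', div_pow, div_le_div_iff₀ (by positivity) (by positivity)]
        have h5 : (N + Z) * (N + (Z + 1)) ≤ (N + (Z + 1)) ^ 2 := by nlinarith
        have h6 : N ^ 2 * (N + (↑Z + 1)) - (N + ↑Z) * N ^ 2 = N ^ 2 := by ring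
        rw [h6]
        exact mul_le_mul_of_nonneg_left h5 (by positivity)
      push_cast
      push_cast at h3
      linarith
  refine (key Z).trans ?_
  have hZ : (0 : ℝ) ≤ Z := Nat.cast_nonneg Z
  have h1 : 0 < N + Z := by linarith
  have : 0 ≤ N ^ 2 / (N + Z) := by positivity
  linarith

theorem sum_al_sqrt (N : ℝ) (hN : 0 < N) (Z : ℕ) :
    ∑ n ∈ Icc 1 Z, al N n / Real.sqrt n ≤ 2 * Real.sqrt N := by
  have key : ∀ Z : ℕ, ∑ n ∈ Icc 1 Z, al N n / Real.sqrt n ≤
      2 * Real.sqrt (Z * N / (N + Z)) := by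
    intro Z
    induction Z with
    | zero => simp
    | succ Z ih =>
      rw [sum_Icc_succ_top (by omega)]
      have hZ : (0 : ℝ) ≤ Z := Nat.cast_nonneg Z
      have h1 : 0 < N + Z := by linarith
      have h2 : 0 < N + (Z + 1) := by linarith
      set F0 := Real.sqrt (Z * N / (N + Z)) with hF0
      set F1 := Real.sqrt (((Z + 1 : ℕ) : ℝ) * N / (N + ((Z + 1 : ℕ) : ℝ))) with hF1
      have e0 : F0 ^ 2 = Z * N / (N + Z) := Real.sq_sqrt (by positivity)
      have e1 : F1 ^ 2 = (Z + 1) * N / (N + (Z + 1)) := by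
        rw [hF1, Real.sq_sqrt (by positivity)]
        push_cast
        rfl
      have p0 : 0 ≤ F0 := Real.sqrt_nonneg _
      have p1 : 0 < F1 := Real.sqrt_pos.mpr (by positivity)
      have hle : F0 ≤ F1 := by
        apply Real.sqrt_le_sqrt
        push_cast
        rw [div_le_div_iff₀ h1 h2]
        nlinarith
      have hs : F1 ≤ Real.sqrt ((Z + 1 : ℕ) : ℝ) := by
        apply Real.sqrt_le_sqrt
        push_cast
        rw [div_le_iff₀ h2]
        nlinarith
      have hspos : 0 < Real.sqrt ((Z + 1 : ℕ) : ℝ) := Real.sqrt_pos.mpr (by positivity)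
      have hdiff : (N / (N + (Z + 1))) ^ 2 ≤ F1 ^ 2 - F0 ^ 2 := by
        rw [e0, e1, div_sub_div _ _ h2.ne' h1.ne', div_pow,
          div_le_div_iff₀ (by positivity) (by positivity)]
        have h5 : (N + (Z + 1)) * (N + Z) ≤ (N + (Z + 1)) ^ 2 := by nlinarith
        have h6 : (↑Z + 1) * N * (N + ↑Z) - (N + (↑Z + 1)) * (↑Z * N) = N ^ 2 := by ring
        rw [h6]
        exact mul_le_mul_of_nonneg_left h5 (by positivity)
      have h3 : al N ((Z + 1 : ℕ) : ℝ) ≤ (N / (N + (Z + 1))) ^ 2 := by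
        rw [al]
        push_cast
        exact pow_le_pow_of_le_one (by positivity) (frac_le_one N _ hN (by linarith)) (by norm_num)
      have h4 : al N ((Z + 1 : ℕ) : ℝ) / Real.sqrt ((Z + 1 : ℕ) : ℝ) ≤ 2 * (F1 - F0) := by
        rw [div_le_iff₀ hspos]
        have a1 : F1 ^ 2 - F0 ^ 2 = (F1 - F0) * (F1 + F0) := by ring
        have a2 : (F1 - F0) * (F1 + F0) ≤ (F1 - F0) * (2 * Real.sqrt ((Z + 1 : ℕ) : ℝ)) :=
          mul_le_mul_of_nonneg_left (by linarith) (by linarith)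
        linarith
      linarith
  refine (key Z).trans ?_
  have hZ : (0 : ℝ) ≤ Z := Nat.cast_nonneg Z
  have h1 : 0 < N + Z := by linarith
  have : Real.sqrt (Z * N / (N + Z)) ≤ Real.sqrt N := by
    apply Real.sqrt_le_sqrt
    rw [div_le_iff₀ h1]
    nlinarith
  linarith

theorem sum_inv (Z : ℕ) : ∑ n ∈ Icc 1 Z, (1 : ℝ) / n ≤ 1 + Real.log Z := by
  have h := harmonic_le_one_add_log Z
  rw [harmonic_eq_sum_Icc] at h
  push_cast at h
  simpa [one_div] using h

theorem sum_mu (H n : ℝ) (hH : 0 < H) (hn : 0 < n) (R : ℕ) :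
    ∑ r ∈ Icc 1 R, mu H r n ≤ n / H := by
  have key : ∀ R : ℕ, ∑ r ∈ Icc 1 R, mu H r n ≤ n / H - n ^ 2 / (H * (n + H * R)) := by
    intro R
    induction R with
    | zero =>
      have : n / H - n ^ 2 / (H * (n + H * ((0 : ℕ) : ℝ))) = 0 := by
        field_simp
        simp
      rw [this]
      simp
    | succ R ih =>
      rw [sum_Icc_succ_top (by omega)]
      have hR : (0 : ℝ) ≤ R := Nat.cast_nonneg R
      have h1 : 0 < n + H * R := by positivity
      have h2 : 0 < n + H * (R + 1) := by positivity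
      have h4 : mu H ((R + 1 : ℕ) : ℝ) n ≤
          n ^ 2 / (H * (n + H * R)) - n ^ 2 / (H * (n + H * (R + 1))) := by
        rw [mu]
        push_cast
        rw [div_sub_div _ _ (by positivity) (by positivity), div_pow,
          div_le_div_iff₀ (by positivity) (by positivity)]
        have h5 : (n + H * R) * (n + H * (R + 1)) ≤ (n + H * (R + 1)) ^ 2 := by nlinarith
        have h6 : n ^ 2 * (H * (n + H * (↑R + 1))) - H * (n + H * ↑R) * n ^ 2 = n ^ 2 * H ^ 2 := by
          ring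
        rw [h6]
        have h7 : n ^ 2 * H ^ 2 * ((n + H * R) * (n + H * (R + 1))) ≤
            n ^ 2 * H ^ 2 * (n + H * (R + 1)) ^ 2 := mul_le_mul_of_nonneg_left h5 (by positivity)
        nlinarith
      push_cast
      push_cast at h4
      linarith
  refine (key R).trans ?_
  have hR : (0 : ℝ) ≤ R := Nat.cast_nonneg R
  have : 0 ≤ n ^ 2 / (H * (n + H * R)) := by positivity
  linarith

theorem mu_anti (H n : ℝ) (hH : 0 < H) (hn : 0 < n) (r : ℕ) :
    mu H ((r + 1 : ℕ) : ℝ) n ≤ mu H r n := by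
  rw [mu, mu]
  have hr : (0 : ℝ) ≤ r := Nat.cast_nonneg r
  push_cast
  apply pow_le_pow_left₀ (by positivity)
  apply div_le_div_of_nonneg_left hn.le (by positivity)
  nlinarith

theorem mu_mono (H r m n : ℝ) (hH : 0 < H) (hr : 0 < r) (hm : 0 < m) (hmn : m ≤ n) :
    mu H r m ≤ mu H r n := by
  rw [mu, mu]
  have hn : 0 < n := by linarith
  apply pow_le_pow_left₀ (by positivity)
  rw [div_le_div_iff₀ (by positivity) (by positivity)]
  nlinarith [mul_pos hH hr]

end Pool.Agent.Y331.QF.C
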