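import Pool.Agent.Y331.QF.Cor0

set_option autoImplicit false

/-! # Correlations of two bounded sequences: one shift (helper of the project QF) -/

namespace Pool.Agent.Y331.QF.C

open Finset

theorem icc_bound (F : ℕ → ℝ) (hF : ∀ n, 1 ≤ n → 0 ≤ F n) (Y n Z : ℕ) (h : Y + 1 + n ≤ Z) :
    ∑ j ∈ range n, F (Y + 1 + (j + 1)) ≤ ∑ k ∈ Icc 1 Z, F k := by
  have e : ∑ j ∈ range n, F (Y + 1 + (j + 1)) = ∑ k ∈ Ioc (Y + 1) (Y + 1 + n), F k := by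
    rw [shift]
    refine sum_congr rfl fun j _ => ?_
    congr 1
    omega
  rw [e]
  refine sum_le_sum_of_subset_of_nonneg ?_ ?_
  · intro k hk
    rw [mem_Ioc] at hk
    rw [mem_Icc]
    omega
  · intro k hk _
    exact hF k (mem_Icc.mp hk).1

theorem mu_nonneg (H r n : ℝ) : 0 ≤ mu H r n := sq_nonneg _

/-- the increment of `μ (n) (ρ n + Q)` -/
theorem incA (H r ρ Q : ℝ) (hH : 0 < H) (hr : 0 < r) (hρ : 0 ≤ ρ) (hQ : 0 ≤ Q) (m : ℝ)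
    (hm : 0 < m) : mu H r (m + 1) * (ρ * (m + 1) + Q) - mu H r m * (ρ * m + Q) ≤
      mu H r (m + 1) * (3 * ρ + 2 * Q / (m + 1)) := by
  have hHr : 0 < H * r := mul_pos hH hr
  have h1 : (m / (m + 1)) ^ 2 * mu H r (m + 1) ≤ mu H r m := by
    rw [mu, mu, ← mul_pow]
    apply pow_le_pow_left₀ (by positivity)
    have e : m / (m + 1) * ((m + 1) / (m + 1 + H * r)) = m / (m + 1 + H * r) := by
      field_simp
    rw [e]
    apply div_le_div_of_nonneg_left hm.le (by positivity)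
    linarith
  have h2 : 1 - 2 / (m + 1) ≤ (m / (m + 1)) ^ 2 := by
    have e : (m / (m + 1)) ^ 2 = 1 - 2 / (m + 1) + 1 / (m + 1) ^ 2 := by
      field_simp
      ring
    rw [e]
    have : 0 ≤ 1 / (m + 1) ^ 2 := by positivity
    linarith
  have h3 : 0 ≤ ρ * m + Q := by positivity
  have h4 := mu_nonneg H r (m + 1)
  have h5 : (1 - 2 / (m + 1)) * mu H r (m + 1) ≤ mu H r m :=
    (mul_le_mul_of_nonneg_right h2 h4).trans h1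
  have h6 := mul_le_mul_of_nonneg_right h5 h3
  have h7 : mu H r (m + 1) * (ρ * (m + 1) + Q) - (1 - 2 / (m + 1)) * mu H r (m + 1) * (ρ * m + Q) ≤
      mu H r (m + 1) * (3 * ρ + 2 * Q / (m + 1)) := by
    have e : mu H r (m + 1) * (ρ * (m + 1) + Q) -
        (1 - 2 / (m + 1)) * mu H r (m + 1) * (ρ * m + Q) =
        mu H r (m + 1) * (ρ + 2 * ρ * (m / (m + 1)) + 2 * Q / (m + 1)) := by
      field_simp
      ring
    rw [e]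
    apply mul_le_mul_of_nonneg_left _ h4
    have : m / (m + 1) ≤ 1 := by
      rw [div_le_one (by linarith)]
      linarith
    nlinarith
  linarith

theorem one (N H ρ Q A0 : ℝ) (r : ℕ) (x : ℕ → ℂ) (I D : ℕ → ℝ) (Y E Z : ℕ) (hN : 0 < N)
    (hH : 0 < H) (hρ : 0 ≤ ρ) (hQ : 0 ≤ Q) (hA : 0 ≤ A0) (hr : 1 ≤ r) (hE : E ≤ Z)
    (hx : ∀ A B : ℕ, A ≤ B → ‖∑ n ∈ Ioc A B, x n‖ ≤ ρ * (B - A) + Q)
    (hI : ∀ n, 1 ≤ n → I n ≤ I (n + 1)) (hI0 : ∀ n, 0 ≤ I n)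
    (hIb : ∀ n : ℕ, 1 ≤ n → I n ≤ 16 * mu H r n + 8 / H ^ 2)
    (hD : ∀ n, 1 ≤ n → D (n + 1) ≤ D n) (hD0 : ∀ n, 0 ≤ D n)
    (hDA : ∀ n : ℕ, 1 ≤ n → D n ≤ A0 * (al N n / n))
    (hDB : ∀ n : ℕ, 1 ≤ n →
      D n ≤ A0 * (al N r / Real.sqrt r * (al N n / Real.sqrt n))) :
    ‖∑ n ∈ Ioc Y E, x n * ((D n * I n : ℝ) : ℂ)‖ ≤
      A0 * (32 * mu H r ((Y + 1 : ℕ) : ℝ) * (ρ + Q / ((Y + 1 : ℕ) : ℝ)) * al N ((Y + 1 : ℕ) : ℝ)
        + ∑ n ∈ Icc 1 Z, 32 * mu H r n * (3 * ρ + 2 * Q / n) * (al N n / n)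
        + 16 / H ^ 2 * (ρ * ((Y + 1 : ℕ) : ℝ) + Q) *
          (al N r / Real.sqrt r * (al N ((Y + 1 : ℕ) : ℝ) / Real.sqrt ((Y + 1 : ℕ) : ℝ)))
        + ∑ n ∈ Icc 1 Z, 16 / H ^ 2 * ρ * (al N r / Real.sqrt r * (al N n / Real.sqrt n))) := by
  have hr0 : (0 : ℝ) < r := by exact_mod_cast hr
  have hal : ∀ t : ℕ, 0 ≤ al N t := fun t => al_nonneg N t hN (Nat.cast_nonneg t)
  have hT1 : 0 ≤ 32 * mu H r ((Y + 1 : ℕ) : ℝ) * (ρ + Q / ((Y + 1 : ℕ) : ℝ)) *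
      al N ((Y + 1 : ℕ) : ℝ) := by
    have := mu_nonneg H r ((Y + 1 : ℕ) : ℝ)
    have := hal (Y + 1)
    positivity
  have hF2 : ∀ n : ℕ, 0 ≤ 32 * mu H r n * (3 * ρ + 2 * Q / n) * (al N n / n) := by
    intro n
    have := mu_nonneg H r (n : ℝ)
    have := hal n
    positivity
  have hT3 : 0 ≤ 16 / H ^ 2 * (ρ * ((Y + 1 : ℕ) : ℝ) + Q) *
      (al N r / Real.sqrt r * (al N ((Y + 1 : ℕ) : ℝ) / Real.sqrt ((Y + 1 : ℕ) : ℝ))) := by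
    have := hal (Y + 1)
    have := hal r
    positivity
  have hF4 : ∀ n : ℕ, 0 ≤ 16 / H ^ 2 * ρ * (al N r / Real.sqrt r * (al N n / Real.sqrt n)) := by
    intro n
    have := hal n
    have := hal r
    positivity
  rcases le_or_gt E Y with hEY | hEY
  · rw [Ioc_eq_empty_of_le hEY, sum_empty, norm_zero]
    refine mul_nonneg hA ?_
    have h2 := sum_nonneg fun n (_ : n ∈ Icc 1 Z) => hF2 n
    have h4 := sum_nonneg fun n (_ : n ∈ Icc 1 Z) => hF4 n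
    linarith
  obtain ⟨n, rfl⟩ : ∃ n, E = Y + 1 + n := ⟨E - (Y + 1), by omega⟩
  rw [shift']
  have hg : ∀ j, ‖∑ k ∈ range (j + 1), x (Y + 1 + k)‖ ≤ ρ * ((Y + 1 + j : ℕ) : ℝ) + Q := by
    intro j
    rw [← shift']
    refine (hx Y (Y + 1 + j) (by omega)).trans ?_
    have : ((Y + 1 + j : ℕ) : ℝ) - Y ≤ ((Y + 1 + j : ℕ) : ℝ) := by
      have : (0 : ℝ) ≤ Y := Nat.cast_nonneg Y
      linarith
    have := mul_le_mul_of_nonneg_left this hρ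
    linarith
  have hgm : Monotone fun j : ℕ => ρ * ((Y + 1 + j : ℕ) : ℝ) + Q := by
    intro i j hij
    have : ((Y + 1 + i : ℕ) : ℝ) ≤ ((Y + 1 + j : ℕ) : ℝ) := by exact_mod_cast (by omega)
    have := mul_le_mul_of_nonneg_left this hρ
    simp only
    linarith
  have hG : ∀ j, ‖∑ k ∈ range (j + 1), x (Y + 1 + k) * (I (Y + 1 + k) : ℂ)‖ ≤
      32 * (mu H r ((Y + 1 + j : ℕ) : ℝ) * (ρ * ((Y + 1 + j : ℕ) : ℝ) + Q)) +
        16 / H ^ 2 * (ρ * ((Y + 1 + j : ℕ) : ℝ) + Q) := by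
    intro j
    have h1 := inc (fun k => x (Y + 1 + k)) (fun k => I (Y + 1 + k))
      (fun j => ρ * ((Y + 1 + j : ℕ) : ℝ) + Q) hg hgm
      (monotone_nat_of_le_succ fun k => hI (Y + 1 + k) (by omega)) (fun k => hI0 _) j
    have h2 : 0 ≤ ρ * ((Y + 1 + j : ℕ) : ℝ) + Q := by positivity
    have h3 := mul_le_mul_of_nonneg_right (hIb (Y + 1 + j) (by omega)) h2
    refine h1.trans ?_
    have e : (16 * mu H r ((Y + 1 + j : ℕ) : ℝ) + 8 / H ^ 2) *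
        (ρ * ((Y + 1 + j : ℕ) : ℝ) + Q) * 2 =
        32 * (mu H r ((Y + 1 + j : ℕ) : ℝ) * (ρ * ((Y + 1 + j : ℕ) : ℝ) + Q)) +
        16 / H ^ 2 * (ρ * ((Y + 1 + j : ℕ) : ℝ) + Q) := by ring
    linarith
  have hDanti : Antitone fun k => D (Y + 1 + k) :=
    antitone_nat_of_succ_le fun k => hD (Y + 1 + k) (by omega)
  have h1 := dec0 (fun k => x (Y + 1 + k) * (I (Y + 1 + k) : ℂ)) (fun k => D (Y + 1 + k)) _ hG
    hDanti (fun k => hD0 _) n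
  have e1 : ∑ i ∈ range (n + 1), x (Y + 1 + i) * ((D (Y + 1 + i) * I (Y + 1 + i) : ℝ) : ℂ) =
      ∑ k ∈ range (n + 1), x (Y + 1 + k) * (I (Y + 1 + k) : ℂ) * (D (Y + 1 + k) : ℂ) := by
    refine sum_congr rfl fun i _ => ?_
    push_cast
    ring
  rw [e1]
  refine h1.trans ?_
  -- the two parts
  have hmA : Monotone fun j : ℕ =>
      32 * (mu H r ((Y + 1 + j : ℕ) : ℝ) * (ρ * ((Y + 1 + j : ℕ) : ℝ) + Q)) := by
    refine monotone_nat_of_le_succ fun j => ?_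
    have p0 : (0 : ℝ) < ((Y + 1 + j : ℕ) : ℝ) := by exact_mod_cast (by omega)
    have p1 : ((Y + 1 + j : ℕ) : ℝ) ≤ ((Y + 1 + (j + 1) : ℕ) : ℝ) := by exact_mod_cast (by omega)
    have a1 := mu_mono H r _ _ hH hr0 p0 p1
    have a2 := hgm (Nat.le_succ j)
    simp only at a2
    have a3 : 0 ≤ ρ * ((Y + 1 + j : ℕ) : ℝ) + Q := by positivity
    have a4 := mul_le_mul a1 a2 a3 (mu_nonneg H r _)
    linarith
  have hmB : Monotone fun j : ℕ => 16 / H ^ 2 * (ρ * ((Y + 1 + j : ℕ) : ℝ) + Q) := by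
    intro i j hij
    exact mul_le_mul_of_nonneg_left (hgm hij) (by positivity)
  have hA1 := maj _ (fun k => D (Y + 1 + k))
    (fun k => A0 * (al N ((Y + 1 + k : ℕ) : ℝ) / ((Y + 1 + k : ℕ) : ℝ))) hmA
    (by
      have := mu_nonneg H r ((Y + 1 + 0 : ℕ) : ℝ)
      positivity)
    (fun j => hDA (Y + 1 + j) (by omega)) n
  have hB1 := maj _ (fun k => D (Y + 1 + k))
    (fun k => A0 * (al N r / Real.sqrt r *
      (al N ((Y + 1 + k : ℕ) : ℝ) / Real.sqrt ((Y + 1 + k : ℕ) : ℝ)))) hmB (by positivity)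
    (fun j => hDB (Y + 1 + j) (by omega)) n
  have e2 : ∑ j ∈ range n, (32 * (mu H r ((Y + 1 + j : ℕ) : ℝ) *
        (ρ * ((Y + 1 + j : ℕ) : ℝ) + Q)) + 16 / H ^ 2 * (ρ * ((Y + 1 + j : ℕ) : ℝ) + Q)) *
        (D (Y + 1 + j) - D (Y + 1 + (j + 1))) +
      (32 * (mu H r ((Y + 1 + n : ℕ) : ℝ) * (ρ * ((Y + 1 + n : ℕ) : ℝ) + Q)) +
        16 / H ^ 2 * (ρ * ((Y + 1 + n : ℕ) : ℝ) + Q)) * D (Y + 1 + n) =
      (∑ j ∈ range n, 32 * (mu H r ((Y + 1 + j : ℕ) : ℝ) * (ρ * ((Y + 1 + j : ℕ) : ℝ) + Q)) *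
        (D (Y + 1 + j) - D (Y + 1 + (j + 1))) +
        32 * (mu H r ((Y + 1 + n : ℕ) : ℝ) * (ρ * ((Y + 1 + n : ℕ) : ℝ) + Q)) * D (Y + 1 + n)) +
      (∑ j ∈ range n, 16 / H ^ 2 * (ρ * ((Y + 1 + j : ℕ) : ℝ) + Q) *
        (D (Y + 1 + j) - D (Y + 1 + (j + 1))) +
        16 / H ^ 2 * (ρ * ((Y + 1 + n : ℕ) : ℝ) + Q) * D (Y + 1 + n)) := by
    rw [show (∑ j ∈ range n, (32 * (mu H r ((Y + 1 + j : ℕ) : ℝ) *
        (ρ * ((Y + 1 + j : ℕ) : ℝ) + Q)) + 16 / H ^ 2 * (ρ * ((Y + 1 + j : ℕ) : ℝ) + Q)) *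
        (D (Y + 1 + j) - D (Y + 1 + (j + 1)))) =
        ∑ j ∈ range n, 32 * (mu H r ((Y + 1 + j : ℕ) : ℝ) * (ρ * ((Y + 1 + j : ℕ) : ℝ) + Q)) *
        (D (Y + 1 + j) - D (Y + 1 + (j + 1))) +
        ∑ j ∈ range n, 16 / H ^ 2 * (ρ * ((Y + 1 + j : ℕ) : ℝ) + Q) *
        (D (Y + 1 + j) - D (Y + 1 + (j + 1))) from by
      rw [← sum_add_distrib]
      exact sum_congr rfl fun j _ => by ring]
    ring
  rw [e2]
  refine (add_le_add hA1 hB1).trans ?_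
  -- the bounds of the four terms
  have b1 : 32 * (mu H r ((Y + 1 + 0 : ℕ) : ℝ) * (ρ * ((Y + 1 + 0 : ℕ) : ℝ) + Q)) *
      (A0 * (al N ((Y + 1 + 0 : ℕ) : ℝ) / ((Y + 1 + 0 : ℕ) : ℝ))) =
      A0 * (32 * mu H r ((Y + 1 : ℕ) : ℝ) * (ρ + Q / ((Y + 1 : ℕ) : ℝ)) *
        al N ((Y + 1 : ℕ) : ℝ)) := by
    rw [add_zero]
    have p0 : ((Y + 1 : ℕ) : ℝ) ≠ 0 := by positivity
    field_simp
  have b3 : 16 / H ^ 2 * (ρ * ((Y + 1 + 0 : ℕ) : ℝ) + Q) * (A0 * (al N r / Real.sqrt r *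
      (al N ((Y + 1 + 0 : ℕ) : ℝ) / Real.sqrt ((Y + 1 + 0 : ℕ) : ℝ)))) =
      A0 * (16 / H ^ 2 * (ρ * ((Y + 1 : ℕ) : ℝ) + Q) *
          (al N r / Real.sqrt r * (al N ((Y + 1 : ℕ) : ℝ) / Real.sqrt ((Y + 1 : ℕ) : ℝ)))) := by
    rw [add_zero]
    ring
  have b2 : ∑ j ∈ range n, (32 * (mu H r ((Y + 1 + (j + 1) : ℕ) : ℝ) *
        (ρ * ((Y + 1 + (j + 1) : ℕ) : ℝ) + Q)) -
        32 * (mu H r ((Y + 1 + j : ℕ) : ℝ) * (ρ * ((Y + 1 + j : ℕ) : ℝ) + Q))) *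
        (A0 * (al N ((Y + 1 + (j + 1) : ℕ) : ℝ) / ((Y + 1 + (j + 1) : ℕ) : ℝ))) ≤
      A0 * ∑ n ∈ Icc 1 Z, 32 * mu H r n * (3 * ρ + 2 * Q / n) * (al N n / n) := by
    refine le_trans ?_ (mul_le_mul_of_nonneg_left (icc_bound
      (fun n : ℕ => 32 * mu H r n * (3 * ρ + 2 * Q / n) * (al N n / n)) (fun k _ => hF2 k) Y n Z
      hE) hA)
    rw [mul_sum]
    refine sum_le_sum fun j _ => ?_
    have p0 : (0 : ℝ) < ((Y + 1 + j : ℕ) : ℝ) := by exact_mod_cast (by omega)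
    have c1 : ((Y + 1 + (j + 1) : ℕ) : ℝ) = ((Y + 1 + j : ℕ) : ℝ) + 1 := by
      push_cast
      ring
    have a1 := incA H r ρ Q hH hr0 hρ hQ ((Y + 1 + j : ℕ) : ℝ) p0
    rw [← c1] at a1
    have a2 : 0 ≤ A0 * (al N ((Y + 1 + (j + 1) : ℕ) : ℝ) / ((Y + 1 + (j + 1) : ℕ) : ℝ)) := by
      have := hal (Y + 1 + (j + 1))
      positivity
    have a3 := mul_le_mul_of_nonneg_right a1 a2
    linarith
  have b4 : ∑ j ∈ range n, (16 / H ^ 2 * (ρ * ((Y + 1 + (j + 1) : ℕ) : ℝ) + Q) -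
        16 / H ^ 2 * (ρ * ((Y + 1 + j : ℕ) : ℝ) + Q)) *
        (A0 * (al N r / Real.sqrt r *
      (al N ((Y + 1 + (j + 1) : ℕ) : ℝ) / Real.sqrt ((Y + 1 + (j + 1) : ℕ) : ℝ)))) ≤
      A0 * ∑ n ∈ Icc 1 Z, 16 / H ^ 2 * ρ * (al N r / Real.sqrt r * (al N n / Real.sqrt n)) := by
    refine le_trans ?_ (mul_le_mul_of_nonneg_left (icc_bound
      (fun n : ℕ => 16 / H ^ 2 * ρ * (al N r / Real.sqrt r * (al N n / Real.sqrt n)))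
      (fun k _ => hF4 k) Y n Z hE) hA)
    rw [mul_sum]
    refine sum_le_sum fun j _ => le_of_eq ?_
    have c1 : ((Y + 1 + (j + 1) : ℕ) : ℝ) = ((Y + 1 + j : ℕ) : ℝ) + 1 := by
      push_cast
      ring
    rw [c1]
    ring
  rw [b1, b3]
  linarith

end Pool.Agent.Y331.QF.C
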