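import Mathlib

set_option autoImplicit false

/-! # The integral of `exp (-|u|/H) exp (-iuy)` (helper of the project QF) -/

namespace Pool.Agent.Y331.QF

open MeasureTheory Set Filter Complex Topology

/-- the integrand on the positive half line -/
theorem pos_eq (H y u : ℝ) (hu : 0 < u) :
    (Real.exp (-(|u| / H)) : ℂ) * Complex.exp (-(I * u * y)) =
      Complex.exp (-((1 / H : ℝ) + I * y) * u) := by
  rw [abs_of_pos hu, Complex.ofReal_exp, ← Complex.exp_add]
  congr 1
  push_cast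
  ring

theorem neg_eq (H y u : ℝ) (hu : u ≤ 0) :
    (Real.exp (-(|u| / H)) : ℂ) * Complex.exp (-(I * u * y)) =
      Complex.exp (((1 / H : ℝ) - I * y) * u) := by
  rw [abs_of_nonpos hu, Complex.ofReal_exp, ← Complex.exp_add]
  congr 1
  push_cast
  ring

theorem re1 (H y : ℝ) (hH : 0 < H) : (-(((1 / H : ℝ) : ℂ) + I * y)).re < 0 := by
  have : (-(((1 / H : ℝ) : ℂ) + I * y)).re = -(1 / H) := by simp
  rw [this]
  have : 0 < 1 / H := by positivity
  linarith

theorem re2 (H y : ℝ) (hH : 0 < H) : 0 < (((1 / H : ℝ) : ℂ) - I * y).re := by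
  have : (((1 / H : ℝ) : ℂ) - I * y).re = 1 / H := by simp
  rw [this]
  positivity

theorem int_Ioi (H y : ℝ) (hH : 0 < H) : IntegrableOn
    (fun u : ℝ => (Real.exp (-(|u| / H)) : ℂ) * Complex.exp (-(I * u * y))) (Ioi 0) := by
  refine (integrableOn_exp_mul_complex_Ioi (re1 H y hH) 0).congr_fun ?_ measurableSet_Ioi
  intro u hu
  exact (pos_eq H y u hu).symm

theorem int_Iic (H y : ℝ) (hH : 0 < H) : IntegrableOn
    (fun u : ℝ => (Real.exp (-(|u| / H)) : ℂ) * Complex.exp (-(I * u * y))) (Iic 0) := by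
  refine (integrableOn_exp_mul_complex_Iic (re2 H y hH) 0).congr_fun ?_ measurableSet_Iic
  intro u hu
  exact (neg_eq H y u hu).symm

theorem KER_int (H y : ℝ) (hH : 0 < H) : Integrable
    (fun u : ℝ => (Real.exp (-(|u| / H)) : ℂ) * Complex.exp (-(I * u * y))) := by
  rw [← integrableOn_univ, ← Iic_union_Ioi (a := (0 : ℝ))]
  exact (int_Iic H y hH).union (int_Ioi H y hH)

theorem ker0 (H y : ℝ) (hH : 0 < H) :
    ∫ u : ℝ, (Real.exp (-(|u| / H)) : ℂ) * Complex.exp (-(I * u * y)) =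
      (H * (2 / (1 + (H * y) ^ 2)) : ℝ) := by
  rw [← intervalIntegral.integral_Iic_add_Ioi (int_Iic H y hH) (int_Ioi H y hH),
    setIntegral_congr_fun measurableSet_Iic (fun u hu => neg_eq H y u hu),
    setIntegral_congr_fun measurableSet_Ioi (fun u hu => pos_eq H y u hu),
    integral_exp_mul_complex_Iic (re2 H y hH), integral_exp_mul_complex_Ioi (re1 H y hH)]
  have h1 : (((1 / H : ℝ) : ℂ) - I * y) ≠ 0 := by
    intro h
    have := re2 H y hH
    rw [h] at this
    simp at this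
  have h2 : (((1 / H : ℝ) : ℂ) + I * y) ≠ 0 := by
    intro h
    have := re1 H y hH
    rw [h] at this
    simp at this
  have h3 : (H : ℂ) ≠ 0 := by exact_mod_cast hH.ne'
  have h4 : (1 + ((H : ℂ) * y) ^ 2) ≠ 0 := by
    have : (1 + (H * y) ^ 2 : ℝ) ≠ 0 := by positivity
    exact_mod_cast this
  have h5 : (((1 / H : ℝ) : ℂ) - I * y) * (((1 / H : ℝ) : ℂ) + I * y) =
      (1 + ((H : ℂ) * y) ^ 2) / H ^ 2 := by
    push_cast
    field_simp
    linear_combination (-(y : ℂ) ^ 2 * H ^ 2) * Complex.I_sq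
  rw [Complex.ofReal_zero, mul_zero, mul_zero, Complex.exp_zero, div_neg, neg_div, neg_neg,
    div_add_div _ _ h1 h2, h5]
  push_cast
  field_simp
  ring

end Pool.Agent.Y331.QF
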