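import Pool.Agent.Y752.QF.Stm
import Pool.Agent.Y331.QF.Ker0

set_option autoImplicit false

/-! # The integral of `exp (-|u|/H) exp (-iuy)` (helper of the project QF) -/

namespace Pool.Agent.Y331.QF

open Pool.Agent.Y752.QF (ker)

theorem KER : Pool.Agent.Y752.QF.S_KER := by
  intro H y hH
  rw [ker]
  exact ker0 H y hH

end Pool.Agent.Y331.QF
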