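import Mathlib

set_option autoImplicit false

/-! # Differences of `n^(-s) (1 - e^(-n/N))^(R+1)` (helper of the project QF) -/

namespace Pool.Agent.Y331.QF

open Set Filter Complex Topology Metric

/-- iterated differences of a function of a complex variable -/
noncomputable def G (F : ℂ → ℂ) : ℕ → ℂ → ℂ
  | 0 => F
  | j + 1 => fun z => G F j (z + 1) - G F j z

theorem G_diff (F : ℂ → ℂ) (hF : ∀ z : ℂ, 0 < z.re → DifferentiableAt ℂ F z) (j : ℕ) :
    ∀ z : ℂ, 0 < z.re → DifferentiableAt ℂ (G F j) z := by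
  induction j with
  | zero => exact hF
  | succ j ih =>
    intro z hz
    have h1 : DifferentiableAt ℂ (fun z => G F j (z + 1)) z := by
      have h2 : DifferentiableAt ℂ (G F j) (z + 1) := ih _ (by simp; linarith)
      exact h2.comp z (differentiableAt_id.add_const 1)
    exact h1.sub (ih z hz)

theorem G_bound (F : ℂ → ℂ) (hF : ∀ z : ℂ, 0 < z.re → DifferentiableAt ℂ F z) (c : ℂ)
    (r ρ M : ℝ) (hρ : 0 < ρ) (hre : ∀ z : ℂ, ‖z - c‖ ≤ r → 0 < z.re)
    (hM : ∀ z : ℂ, ‖z - c‖ ≤ r → ‖F z‖ ≤ M) (j : ℕ) :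
    ∀ z : ℂ, ‖z - c‖ ≤ r - j * (ρ + 1) → ‖G F j z‖ ≤ M / ρ ^ j := by
  induction j with
  | zero =>
    intro z hz
    rw [pow_zero, div_one]
    refine hM z ?_
    simpa using hz
  | succ j ih =>
    intro z hz
    have hz' : ‖z - c‖ ≤ r - (j : ℝ) * (ρ + 1) - (ρ + 1) := by
      push_cast at hz
      linarith
    have hj : (0 : ℝ) ≤ j * (ρ + 1) := by positivity
    have hseg : ∀ w ∈ segment ℝ z (z + 1), ‖w - c‖ ≤ r - (j : ℝ) * (ρ + 1) - ρ := by
      intro w hw
      obtain ⟨θ, ⟨h0, h1⟩, rfl⟩ := (segment_eq_image' ℝ z (z + 1) ▸ hw :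
        w ∈ (fun θ : ℝ => z + θ • (z + 1 - z)) '' Icc 0 1)
      have e : z + θ • (z + 1 - z) - c = (z - c) + (θ : ℂ) := by
        rw [add_sub_cancel_left, Complex.real_smul, mul_one]
        ring
      simp only at e ⊢
      rw [e]
      refine (norm_add_le _ _).trans ?_
      rw [Complex.norm_real, Real.norm_eq_abs, abs_of_nonneg h0]
      linarith
    have hderiv : ∀ w ∈ segment ℝ z (z + 1), ‖deriv (G F j) w‖ ≤ M / ρ ^ j / ρ := by
      intro w hw
      have hw1 := hseg w hw
      refine Complex.norm_deriv_le_of_forall_mem_sphere_norm_le hρ ?_ ?_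
      · apply DifferentiableOn.diffContOnCl
        rw [closure_ball w hρ.ne']
        intro v hv
        rw [mem_closedBall, dist_eq_norm] at hv
        refine (G_diff F hF j v (hre v ?_)).differentiableWithinAt
        have : v - c = (v - w) + (w - c) := by ring
        rw [this]
        refine (norm_add_le _ _).trans ?_
        linarith
      · intro v hv
        rw [mem_sphere, dist_eq_norm] at hv
        apply ih
        have : v - c = (v - w) + (w - c) := by ring
        rw [this]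
        refine (norm_add_le _ _).trans ?_
        linarith
    have h1 := Convex.norm_image_sub_le_of_norm_deriv_le (f := G F j) (s := segment ℝ z (z + 1))
      (x := z) (y := z + 1) (C := M / ρ ^ j / ρ)
      (fun w hw => G_diff F hF j w (hre w (by
        have := hseg w hw
        linarith))) hderiv (convex_segment _ _) (left_mem_segment _ _ _)
      (right_mem_segment _ _ _)
    rw [add_sub_cancel_left, norm_one, mul_one] at h1
    change ‖G F j (z + 1) - G F j z‖ ≤ M / ρ ^ (j + 1)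
    rw [pow_succ, ← div_div]
    exact h1

theorem norm_one_sub_exp (w : ℂ) (hw : 0 ≤ w.re) : ‖1 - Complex.exp (-w)‖ ≤ ‖w‖ := by
  have h1 := Convex.norm_image_sub_le_of_norm_deriv_le (f := fun w : ℂ => Complex.exp (-w))
    (s := {w : ℂ | 0 ≤ w.re}) (x := w) (y := 0) (C := 1) ?_ ?_ ?_ hw (by simp)
  · simpa using h1
  · intro v _
    fun_prop
  · intro v hv
    have h2 : HasDerivAt (fun w : ℂ => Complex.exp (-w)) (Complex.exp (-v) * -1) v :=
      (hasDerivAt_neg v).cexp
    rw [h2.deriv, norm_mul, norm_neg, norm_one, mul_one, Complex.norm_exp, Real.exp_le_one_iff]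
    simpa using hv
  · exact convex_halfSpace_re_ge 0

theorem norm_one_sub_exp' (w : ℂ) (hw : 0 ≤ w.re) : ‖1 - Complex.exp (-w)‖ ≤ 2 := by
  refine (norm_sub_le _ _).trans ?_
  have : ‖Complex.exp (-w)‖ ≤ 1 := by
    rw [Complex.norm_exp, Real.exp_le_one_iff]
    simpa using hw
  rw [norm_one]
  linarith

/-- the function of a complex variable -/
noncomputable def FF (R : ℕ) (N : ℝ) (s : ℂ) (z : ℂ) : ℂ :=
  z ^ (-s) * (1 - Complex.exp (-(z / N))) ^ (R + 1)

theorem FF_diff (R : ℕ) (N : ℝ) (s : ℂ) (z : ℂ) (hz : 0 < z.re) :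
    DifferentiableAt ℂ (FF R N s) z := by
  have h1 : DifferentiableAt ℂ (fun z : ℂ => z ^ (-s)) z :=
    differentiableAt_id.cpow_const (Or.inl hz)
  have h2 : DifferentiableAt ℂ (fun z : ℂ => (1 - Complex.exp (-(z / N))) ^ (R + 1)) z := by
    fun_prop
  exact h1.mul h2

theorem arg_small (z : ℂ) (hz : 0 < z.re) : |z.arg| ≤ Real.pi / 2 * (|z.im| / ‖z‖) := by
  have hz0 : z ≠ 0 := by
    rintro rfl
    simp at hz
  have h0 : |z.arg| ≤ Real.pi / 2 := Complex.abs_arg_le_pi_div_two_iff.mpr hz.le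
  have h1 : 2 / Real.pi * |z.arg| ≤ Real.sin |z.arg| := Real.mul_le_sin (abs_nonneg _) h0
  have h2 : Real.sin |z.arg| = |z.im| / ‖z‖ := by
    have h3 : Real.sin z.arg = z.im / ‖z‖ := Complex.sin_arg z
    rcases abs_cases z.arg with ⟨h4, h5⟩ | ⟨h4, h5⟩
    · rw [h4, h3]
      have : 0 ≤ z.im := Complex.arg_nonneg_iff.mp h5
      rw [abs_of_nonneg this]
    · rw [h4, Real.sin_neg, h3]
      have : z.im < 0 := Complex.arg_neg_iff.mp h5
      rw [abs_of_neg this, neg_div]
  rw [h2] at h1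
  have hpi := Real.pi_pos
  have h3 : |z.arg| = Real.pi / 2 * (2 / Real.pi * |z.arg|) := by
    field_simp
  rw [h3]
  exact mul_le_mul_of_nonneg_left h1 (by positivity)

/-- bound of the function in a disc -/
theorem FF_bound (R : ℕ) (N : ℝ) (s : ℂ) (n : ℕ) (hN : 1 ≤ N) (hs1 : 1 / 4 ≤ s.re)
    (hs2 : s.re ≤ 2) (hn : 1 ≤ n) (z : ℂ) (hz : ‖z - n‖ ≤ n / (8 * (2 + |s.im|))) :
    0 < z.re ∧ ‖FF R N s z‖ ≤ 4 * (n : ℝ) ^ (-s.re) * (2 * min 1 (n / N)) ^ (R + 1) := by
  have hn' : (1 : ℝ) ≤ n := by exact_mod_cast hn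
  have hn0 : (0 : ℝ) < n := by linarith
  have ht : 0 ≤ |s.im| := abs_nonneg _
  have hr1 : (n : ℝ) / (8 * (2 + |s.im|)) ≤ n / 16 := by
    apply div_le_div_of_nonneg_left hn0.le (by norm_num)
    linarith
  have hz1 : ‖z - n‖ ≤ n / 16 := hz.trans hr1
  have hre : |z.re - n| ≤ n / 16 := by
    have := Complex.abs_re_le_norm (z - n)
    simp at this
    linarith
  have hre1 : (n : ℝ) * (15 / 16) ≤ z.re := by
    have := (abs_le.mp hre).1
    linarith
  have hre0 : 0 < z.re := by nlinarith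
  have him : |z.im| ≤ n / (8 * (2 + |s.im|)) := by
    have := Complex.abs_im_le_norm (z - n)
    simp at this
    linarith
  have hz0 : z ≠ 0 := by
    rintro rfl
    simp at hre0
  have hnorm1 : (n : ℝ) * (15 / 16) ≤ ‖z‖ := hre1.trans (Complex.re_le_norm z)
  have hnorm2 : ‖z‖ ≤ n * (17 / 16) := by
    have : z = (z - n) + n := by ring
    rw [this]
    refine (norm_add_le _ _).trans ?_
    rw [Complex.norm_natCast]
    linarith
  refine ⟨hre0, ?_⟩
  -- the power
  have hA : ‖z ^ (-s)‖ ≤ 4 * (n : ℝ) ^ (-s.re) := by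
    rw [Complex.norm_cpow_of_ne_zero hz0, Complex.neg_re, Complex.neg_im]
    have harg : |z.arg| * |s.im| ≤ 1 := by
      have h1 := arg_small z hre0
      have h2 : |z.im| / ‖z‖ ≤ (16 / 15) / (8 * (2 + |s.im|)) := by
        rw [div_le_div_iff₀ (norm_pos_iff.mpr hz0) (by positivity)]
        rw [le_div_iff₀ (by positivity)] at him
        nlinarith
      have hpi : Real.pi < 4 := by
        have := Real.pi_lt_d2
        linarith
      have h3 : Real.pi / 2 * (|z.im| / ‖z‖) ≤ 2 * ((16 / 15) / (8 * (2 + |s.im|))) := by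
        apply mul_le_mul (by linarith) h2 (by positivity) (by norm_num)
      have h4 : 2 * ((16 / 15) / (8 * (2 + |s.im|))) * |s.im| ≤ 1 := by
        rw [← mul_div_assoc, div_mul_eq_mul_div, div_le_one (by positivity)]
        nlinarith
      calc |z.arg| * |s.im| ≤ 2 * ((16 / 15) / (8 * (2 + |s.im|))) * |s.im| :=
            mul_le_mul_of_nonneg_right (h1.trans h3) ht
        _ ≤ 1 := h4
    have h5 : (Real.exp (z.arg * -s.im))⁻¹ ≤ Real.exp 1 := by
      rw [← Real.exp_neg]
      apply Real.exp_le_exp.mpr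
      have : -(z.arg * -s.im) ≤ |z.arg * s.im| := by
        have := le_abs_self (z.arg * s.im)
        linarith
      rw [abs_mul] at this
      linarith
    have h6 : ‖z‖ ^ (-s.re) ≤ (16 / 15) ^ (2 : ℝ) * (n : ℝ) ^ (-s.re) := by
      have a1 : ‖z‖ ^ (-s.re) ≤ ((n : ℝ) * (15 / 16)) ^ (-s.re) :=
        Real.rpow_le_rpow_of_nonpos (by positivity) hnorm1 (by linarith)
      have a2 : ((n : ℝ) * (15 / 16)) ^ (-s.re) = (n : ℝ) ^ (-s.re) * (16 / 15) ^ s.re := by
        rw [Real.mul_rpow hn0.le (by norm_num)]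
        congr 1
        rw [Real.rpow_neg (by norm_num), ← Real.inv_rpow (by norm_num)]
        norm_num
      have a3 : (16 / 15 : ℝ) ^ s.re ≤ (16 / 15) ^ (2 : ℝ) :=
        Real.rpow_le_rpow_of_exponent_le (by norm_num) hs2
      rw [a2] at a1
      calc ‖z‖ ^ (-s.re) ≤ (n : ℝ) ^ (-s.re) * (16 / 15) ^ s.re := a1
        _ ≤ (n : ℝ) ^ (-s.re) * (16 / 15) ^ (2 : ℝ) :=
            mul_le_mul_of_nonneg_left a3 (by positivity)
        _ = _ := by ring
    have h7 : (16 / 15 : ℝ) ^ (2 : ℝ) * Real.exp 1 ≤ 4 := by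
      have : (16 / 15 : ℝ) ^ (2 : ℝ) = 256 / 225 := by
        rw [Real.rpow_two]
        norm_num
      rw [this]
      have := Real.exp_one_lt_d9
      linarith
    rw [div_eq_mul_inv]
    calc ‖z‖ ^ (-s.re) * (Real.exp (z.arg * -s.im))⁻¹
        ≤ ((16 / 15) ^ (2 : ℝ) * (n : ℝ) ^ (-s.re)) * Real.exp 1 :=
          mul_le_mul h6 h5 (by positivity) (by positivity)
      _ = ((16 / 15) ^ (2 : ℝ) * Real.exp 1) * (n : ℝ) ^ (-s.re) := by ring
      _ ≤ 4 * (n : ℝ) ^ (-s.re) := mul_le_mul_of_nonneg_right h7 (by positivity)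
  have hN0 : 0 < N := by linarith
  have hB : ‖1 - Complex.exp (-(z / N))‖ ≤ 2 * min 1 (n / N) := by
    have hw : 0 ≤ (z / N : ℂ).re := by
      rw [Complex.div_ofReal_re]
      positivity
    rcases le_total 1 ((n : ℝ) / N) with h | h
    · rw [min_eq_left h]
      have := norm_one_sub_exp' _ hw
      linarith
    · rw [min_eq_right h]
      refine (norm_one_sub_exp _ hw).trans ?_
      rw [norm_div, Complex.norm_real, Real.norm_eq_abs, abs_of_pos hN0, ← mul_div_assoc]
      apply div_le_div_of_nonneg_right _ hN0.le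
      linarith
  rw [FF, norm_mul, norm_pow]
  exact mul_le_mul hA (pow_le_pow_left₀ (norm_nonneg _) hB _) (by positivity) (by positivity)

end Pool.Agent.Y331.QF
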