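import Pool.Agent.Y752.QF.Stm
import Pool.Agent.Y331.QF.L1a0

set_option autoImplicit false

/-! # Differences of `n^(-s) (1 - e^(-n/N))^(R+1)` (helper of the project QF) -/

namespace Pool.Agent.Y331.QF

open Set Filter Complex Topology Metric
open Pool.Agent.Y752.QF (fwd ff)

theorem ff_eq (R : ℕ) (N : ℝ) (s : ℂ) (k : ℕ) : ff R N s k = FF R N s k := by
  rw [ff, FF]
  push_cast
  rfl

theorem fwd_eq (R : ℕ) (N : ℝ) (s : ℂ) (j : ℕ) :
    ∀ k : ℕ, fwd^[j] (ff R N s) k = G (FF R N s) j k := by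
  induction j with
  | zero =>
    intro k
    exact ff_eq R N s k
  | succ j ih =>
    intro k
    rw [Function.iterate_succ_apply', fwd, ih, ih]
    simp only [G]
    push_cast
    rfl

theorem fwd_triv (f : ℕ → ℂ) (B : ℝ) (n R : ℕ) (hf : ∀ k, n ≤ k → k ≤ n + R → ‖f k‖ ≤ B)
    (j : ℕ) : ∀ k, n ≤ k → k + j ≤ n + R → ‖fwd^[j] f k‖ ≤ 2 ^ j * B := by
  induction j with
  | zero =>
    intro k h1 h2
    simpa using hf k h1 (by simpa using h2)
  | succ j ih =>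
    intro k h1 h2
    rw [Function.iterate_succ_apply', fwd]
    refine (norm_sub_le _ _).trans ?_
    have h3 := ih (k + 1) (by omega) (by omega)
    have h4 := ih k h1 (by omega)
    rw [pow_succ]
    linarith

theorem ff_bound (R : ℕ) (N : ℝ) (s : ℂ) (n k : ℕ) (hN : 1 ≤ N) (hs1 : 1 / 4 ≤ s.re)
    (hn : 1 ≤ n) (h1 : n ≤ k) (h2 : k ≤ n + R) :
    ‖ff R N s k‖ ≤ (n : ℝ) ^ (-s.re) * ((R + 1) * min 1 (n / N)) ^ (R + 1) := by
  have hn' : (1 : ℝ) ≤ n := by exact_mod_cast hn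
  have hn0 : (0 : ℝ) < n := by linarith
  have hN0 : 0 < N := by linarith
  have hk0 : 0 < k := by omega
  have hk1 : (n : ℝ) ≤ k := by exact_mod_cast h1
  have hk2 : (k : ℝ) ≤ (R + 1) * n := by
    have a1 : (k : ℝ) ≤ n + R := by exact_mod_cast h2
    have a2 : (R : ℝ) ≤ R * n := by
      have : (0 : ℝ) ≤ R := Nat.cast_nonneg R
      nlinarith
    linarith
  have hR0 : (0 : ℝ) ≤ R := Nat.cast_nonneg R
  rw [ff, norm_mul, Complex.norm_natCast_cpow_of_pos hk0, Complex.norm_real, Real.norm_eq_abs,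
    Complex.neg_re]
  have e0 : 0 ≤ 1 - Real.exp (-((k : ℝ) / N)) := by
    have : Real.exp (-((k : ℝ) / N)) ≤ 1 := by
      rw [Real.exp_le_one_iff]
      have : (0 : ℝ) ≤ (k : ℝ) / N := by positivity
      linarith
    linarith
  rw [abs_of_nonneg (pow_nonneg e0 _)]
  have e1 : 1 - Real.exp (-((k : ℝ) / N)) ≤ (R + 1) * min 1 (n / N) := by
    rcases le_total 1 ((n : ℝ) / N) with h | h
    · rw [min_eq_left h]
      have := Real.exp_pos (-((k : ℝ) / N))
      linarith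
    · rw [min_eq_right h]
      have h3 := Real.add_one_le_exp (-((k : ℝ) / N))
      have h4 : (k : ℝ) / N ≤ (R + 1) * n / N := div_le_div_of_nonneg_right hk2 hN0.le
      rw [← mul_div_assoc]
      linarith
  have e2 : (k : ℝ) ^ (-s.re) ≤ (n : ℝ) ^ (-s.re) :=
    Real.rpow_le_rpow_of_nonpos hn0 hk1 (by linarith)
  exact mul_le_mul e2 (pow_le_pow_left₀ e0 e1 _) (by positivity) (by positivity)

theorem L1a : Pool.Agent.Y752.QF.S_L1a := by
  intro R hR
  have hR1 : (1 : ℝ) ≤ R := by exact_mod_cast hR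
  refine ⟨2 ^ R * (R + 1) ^ (R + 1) * (16 * R) ^ R + 4 * 2 ^ (R + 1) * (16 * R) ^ R,
    by positivity, ?_⟩
  intro N s n hN hs1 hs2 hn
  have hn' : (1 : ℝ) ≤ n := by exact_mod_cast hn
  have hn0 : (0 : ℝ) < n := by linarith
  have hN0 : 0 < N := by linarith
  set T : ℝ := 2 + |s.im| with hT
  have hT2 : 2 ≤ T := by
    have := abs_nonneg s.im
    linarith
  have hT0 : 0 < T := by linarith
  set m : ℝ := min 1 ((n : ℝ) / N) with hm
  have hm0 : 0 ≤ m := le_min zero_le_one (by positivity)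
  have hpow : (n : ℝ) ^ (-s.re - R) = (n : ℝ) ^ (-s.re) / (n : ℝ) ^ R := by
    rw [Real.rpow_sub hn0, Real.rpow_natCast]
  rw [hpow]
  have hX : 0 < (n : ℝ) ^ (-s.re) := by positivity
  have hRR : (0 : ℝ) < (16 * R) ^ R := by positivity
  have goalA : (2 ^ R * (R + 1) ^ (R + 1) * (16 * R) ^ R) * T ^ R *
      ((n : ℝ) ^ (-s.re) / (n : ℝ) ^ R) * m ^ (R + 1) ≤
      (2 ^ R * (R + 1) ^ (R + 1) * (16 * R) ^ R + 4 * 2 ^ (R + 1) * (16 * R) ^ R) * T ^ R *
      ((n : ℝ) ^ (-s.re) / (n : ℝ) ^ R) * m ^ (R + 1) := by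
    gcongr
    have : (0 : ℝ) ≤ 4 * 2 ^ (R + 1) * (16 * R) ^ R := by positivity
    linarith
  have goalB : (4 * 2 ^ (R + 1) * (16 * R) ^ R) * T ^ R *
      ((n : ℝ) ^ (-s.re) / (n : ℝ) ^ R) * m ^ (R + 1) ≤
      (2 ^ R * (R + 1) ^ (R + 1) * (16 * R) ^ R + 4 * 2 ^ (R + 1) * (16 * R) ^ R) * T ^ R *
      ((n : ℝ) ^ (-s.re) / (n : ℝ) ^ R) * m ^ (R + 1) := by
    gcongr
    have : (0 : ℝ) ≤ 2 ^ R * (R + 1) ^ (R + 1) * (16 * R) ^ R := by positivity
    linarith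
  rcases lt_or_ge (n : ℝ) (16 * R * T) with hlt | hge
  · refine le_trans ?_ goalA
    have h1 := fwd_triv (ff R N s) ((n : ℝ) ^ (-s.re) * ((R + 1) * m) ^ (R + 1)) n R
      (fun k a b => ff_bound R N s n k hN hs1 hn a b) R n le_rfl le_rfl
    refine h1.trans ?_
    have h2 : (1 : ℝ) ≤ (16 * R) ^ R * T ^ R / (n : ℝ) ^ R := by
      rw [← mul_pow, ← div_pow]
      apply one_le_pow₀
      rw [one_le_div hn0]
      exact hlt.le
    have h3 : 0 ≤ 2 ^ R * ((n : ℝ) ^ (-s.re) * ((R + 1) * m) ^ (R + 1)) := by positivity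
    calc 2 ^ R * ((n : ℝ) ^ (-s.re) * ((R + 1) * m) ^ (R + 1))
        = 2 ^ R * ((n : ℝ) ^ (-s.re) * ((R + 1) * m) ^ (R + 1)) * 1 := by ring
      _ ≤ 2 ^ R * ((n : ℝ) ^ (-s.re) * ((R + 1) * m) ^ (R + 1)) *
          ((16 * R) ^ R * T ^ R / (n : ℝ) ^ R) := mul_le_mul_of_nonneg_left h2 h3
      _ = _ := by
          rw [mul_pow]
          ring
  · refine le_trans ?_ goalB
    set r : ℝ := (n : ℝ) / (8 * T) with hr
    have hr2 : 2 * R ≤ r := by
      rw [hr, le_div_iff₀ (by positivity)]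
      linarith
    have hρ : 0 < r / (2 * R) := by
      have : 0 < r := by positivity
      positivity
    have h1 := G_bound (FF R N s) (fun z hz => FF_diff R N s z hz) (n : ℂ) r (r / (2 * R))
      (4 * (n : ℝ) ^ (-s.re) * (2 * m) ^ (R + 1)) hρ
      (fun z hz => (FF_bound R N s n hN hs1 hs2 hn z hz).1)
      (fun z hz => (FF_bound R N s n hN hs1 hs2 hn z hz).2) R (n : ℂ) (by
        rw [sub_self, norm_zero]
        have e : (R : ℝ) * (r / (2 * R) + 1) = r / 2 + R := by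
          field_simp
        rw [e]
        linarith)
    rw [fwd_eq]
    refine h1.trans (le_of_eq ?_)
    have e1 : r / (2 * R) = (n : ℝ) / (16 * R * T) := by
      rw [hr]
      field_simp
      ring
    rw [e1, div_pow, mul_pow, mul_pow (16 * (R : ℝ)) T R]
    field_simp

end Pool.Agent.Y331.QF
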